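import Mathlib

/-!
# Special braids: set-up

`BInf` is the group with generators `σ 0, σ 1, ...` and the braid relations.
-/

namespace SpecialBraids

/-- The defining relators of the infinite braid group, the generator with index `i` being
the one usually written with index `i + 1`. -/
def rels : Set (FreeGroup ℕ) :=
  {r | (∃ i j : ℕ, i + 2 ≤ j ∧
          r = (FreeGroup.of i * FreeGroup.of j) * (FreeGroup.of j * FreeGroup.of i)⁻¹) ∨
       (∃ i : ℕ, r = (FreeGroup.of i * FreeGroup.of (i + 1) * FreeGroup.of i) *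
          (FreeGroup.of (i + 1) * FreeGroup.of i * FreeGroup.of (i + 1))⁻¹)}

/-- The infinite braid group. -/
abbrev BInf := PresentedGroup rels

/-- The generators. -/
def σ (i : ℕ) : BInf := PresentedGroup.of i

theorem σ_comm {i j : ℕ} (h : i + 2 ≤ j) : σ i * σ j = σ j * σ i := by
  have h1 : (PresentedGroup.mk rels) ((FreeGroup.of i * FreeGroup.of j) *
      (FreeGroup.of j * FreeGroup.of i)⁻¹) = 1 :=
    PresentedGroup.one_of_mem (Or.inl ⟨i, j, h, rfl⟩)
  rw [map_mul, map_inv, mul_inv_eq_one] at h1
  simpa [σ, PresentedGroup.of] using h1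

theorem σ_braid (i : ℕ) : σ i * σ (i + 1) * σ i = σ (i + 1) * σ i * σ (i + 1) := by
  have h1 : (PresentedGroup.mk rels) ((FreeGroup.of i * FreeGroup.of (i + 1) * FreeGroup.of i) *
          (FreeGroup.of (i + 1) * FreeGroup.of i * FreeGroup.of (i + 1))⁻¹) = 1 :=
    PresentedGroup.one_of_mem (Or.inr ⟨i, rfl⟩)
  rw [map_mul, map_inv, mul_inv_eq_one] at h1
  simpa [σ, PresentedGroup.of] using h1

/-- Homomorphisms out of `BInf`. -/
def lift {G : Type*} [Group G] (f : ℕ → G)
    (h1 : ∀ i j, i + 2 ≤ j → f i * f j = f j * f i)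
    (h2 : ∀ i, f i * f (i + 1) * f i = f (i + 1) * f i * f (i + 1)) : BInf →* G :=
  PresentedGroup.toGroup (f := f) (by
    rintro r (⟨i, j, h, rfl⟩ | ⟨i, rfl⟩)
    · simp only [map_mul, map_inv, FreeGroup.lift_apply_of, mul_inv_eq_one]
      exact h1 i j h
    · simp only [map_mul, map_inv, FreeGroup.lift_apply_of, mul_inv_eq_one]
      exact h2 i)

@[simp] theorem lift_σ {G : Type*} [Group G] (f : ℕ → G) (h1) (h2) (i : ℕ) :
    lift f h1 h2 (σ i) = f i := by
  simp [lift, σ]

/-- The shift endomorphism. -/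
def sh : BInf →* BInf :=
  lift (fun i => σ (i + 1)) (fun i j h => σ_comm (by omega)) (fun i => σ_braid (i + 1))

@[simp] theorem sh_σ (i : ℕ) : sh (σ i) = σ (i + 1) := lift_σ _ _ _ i

/-- The self-distributive operation. -/
def op (a b : BInf) : BInf := a * sh b * σ 0 * (sh a)⁻¹

/-- Special braids. -/
inductive Special : BInf → Prop
  | one : Special 1
  | op {a b : BInf} : Special a → Special b → Special (op a b)

/-- The subgroup of braids on `n` strands. -/
def Bn (n : ℕ) : Subgroup BInf := Subgroup.closure {s | ∃ i : ℕ, i + 1 < n ∧ s = σ i}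

/-- The special braids that lie in `Bn n`. -/
def specialIn (n : ℕ) : Set BInf := {b | Special b ∧ b ∈ Bn n}

theorem σ_mem {i n : ℕ} (h : i + 1 < n) : σ i ∈ Bn n :=
  Subgroup.subset_closure ⟨i, h, rfl⟩

theorem Bn_mono {m n : ℕ} (h : m ≤ n) : Bn m ≤ Bn n :=
  Subgroup.closure_mono (by rintro s ⟨i, hi, rfl⟩; exact ⟨i, by omega, rfl⟩)

theorem closure_σ : Subgroup.closure (Set.range σ) = ⊤ :=
  PresentedGroup.closure_range_of rels

/-- Induction principle for `BInf`. -/
theorem ind {p : BInf → Prop} (h1 : p 1) (hmul : ∀ x y, p x → p y → p (x * y))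
    (hinv : ∀ x, p x → p x⁻¹) (hσ : ∀ i, p (σ i)) (x : BInf) : p x := by
  have hx : x ∈ Subgroup.closure (Set.range σ) := by rw [closure_σ]; trivial
  induction hx using Subgroup.closure_induction with
  | mem x hx => obtain ⟨i, rfl⟩ := hx; exact hσ i
  | one => exact h1
  | mul x y _ _ hx hy => exact hmul x y hx hy
  | inv x _ hx => exact hinv x hx

theorem exists_mem_Bn (x : BInf) : ∃ n, x ∈ Bn n := by
  induction x using ind with
  | h1 => exact ⟨0, one_mem _⟩
  | hmul x y hx hy =>
    obtain ⟨m, hm⟩ := hx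
    obtain ⟨n, hn⟩ := hy
    exact ⟨max m n, mul_mem (Bn_mono (le_max_left _ _) hm) (Bn_mono (le_max_right _ _) hn)⟩
  | hinv x hx =>
    obtain ⟨m, hm⟩ := hx
    exact ⟨m, inv_mem hm⟩
  | hσ i => exact ⟨i + 2, σ_mem (by omega)⟩

theorem sh_mem {n : ℕ} {x : BInf} (hx : x ∈ Bn n) : sh x ∈ Bn (n + 1) := by
  induction hx using Subgroup.closure_induction with
  | mem x hx => obtain ⟨i, hi, rfl⟩ := hx; rw [sh_σ]; exact σ_mem (by omega)
  | one => rw [map_one]; exact one_mem _
  | mul x y _ _ hx hy => rw [map_mul]; exact mul_mem hx hy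
  | inv x _ hx => rw [map_inv]; exact inv_mem hx

/-- `σ 0` commutes with doubly shifted braids. -/
theorem σ_zero_comm_sh_sh (x : BInf) : σ 0 * sh (sh x) = sh (sh x) * σ 0 := by
  induction x using ind with
  | h1 => simp
  | hmul x y hx hy =>
    rw [map_mul, map_mul, ← mul_assoc, hx, mul_assoc, hy, mul_assoc]
  | hinv x hx =>
    rw [map_inv, map_inv]
    rw [eq_inv_mul_iff_mul_eq, ← mul_assoc, ← hx]
    group
  | hσ i => rw [sh_σ, sh_σ]; exact σ_comm (by omega)

/-! ### The action forgetting one strand -/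

/-- The cocycle of the action forgetting one strand, the strand in position `m`. -/
def coc (i m : ℕ) : BInf :=
  if m = i ∨ m = i + 1 then 1 else if i + 1 < m then σ i else σ (i - 1)

/-- How `σ i` moves the strand in position `m`. -/
def mv (i m : ℕ) : ℕ := if m = i then i + 1 else if m = i + 1 then i else m

theorem mv_mv (i m : ℕ) : mv i (mv i m) = m := by
  unfold mv; split_ifs <;> omega

theorem coc_mv (i m : ℕ) : coc i (mv i m) = coc i m := by
  unfold coc mv
  split_ifs <;> first | rfl | omega

/-- The permutation of `ℕ × BInf` given by `σ i`. -/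
def actP (i : ℕ) : Equiv.Perm (ℕ × BInf) where
  toFun p := (mv i p.1, coc i p.1 * p.2)
  invFun p := (mv i p.1, (coc i p.1)⁻¹ * p.2)
  left_inv p := by simp [mv_mv, coc_mv]
  right_inv p := by simp [mv_mv, coc_mv]

theorem actP_apply (i : ℕ) (m : ℕ) (g : BInf) : actP i (m, g) = (mv i m, coc i m * g) := rfl

theorem mv_comm (i j m : ℕ) (h : i + 2 ≤ j) : mv i (mv j m) = mv j (mv i m) := by
  unfold mv; split_ifs <;> omega

theorem coc_comm (i j m : ℕ) (h : i + 2 ≤ j) :
    coc i (mv j m) * coc j m = coc j (mv i m) * coc i m := by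
  rcases lt_trichotomy m i with h1 | h1 | h1
  · have e1 : mv j m = m := by unfold mv; split_ifs <;> omega
    have e2 : mv i m = m := by unfold mv; split_ifs <;> omega
    have e3 : coc i m = σ (i - 1) := by unfold coc; split_ifs <;> first | rfl | omega
    have e4 : coc j m = σ (j - 1) := by unfold coc; split_ifs <;> first | rfl | omega
    rw [e1, e2, e3, e4]
    exact σ_comm (by omega)
  · have e1 : mv j m = m := by unfold mv; split_ifs <;> omega
    have e2 : mv i m = i + 1 := by unfold mv; rw [if_pos h1]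
    have e3 : coc i m = 1 := by unfold coc; split_ifs <;> first | rfl | omega
    have e4 : coc j m = σ (j - 1) := by unfold coc; split_ifs <;> first | rfl | omega
    have e5 : coc j (i + 1) = σ (j - 1) := by unfold coc; split_ifs <;> first | rfl | omega
    rw [e1, e2, e3, e4, e5]
    simp
  · rcases Nat.lt_or_ge m (i + 2) with h2 | h2
    · have hm : m = i + 1 := by omega
      have e1 : mv j m = m := by unfold mv; split_ifs <;> omega
      have e2 : mv i m = i := by unfold mv; split_ifs <;> omega
      have e3 : coc i m = 1 := by unfold coc; split_ifs <;> first | rfl | omega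
      have e4 : coc j m = σ (j - 1) := by unfold coc; split_ifs <;> first | rfl | omega
      have e5 : coc j i = σ (j - 1) := by unfold coc; split_ifs <;> first | rfl | omega
      rw [e1, e2, e3, e4, e5]
      simp
    · have e2 : mv i m = m := by unfold mv; split_ifs <;> omega
      have e3 : coc i m = σ i := by unfold coc; split_ifs <;> first | rfl | omega
      rw [e2, e3]
      have e6 : i + 2 ≤ mv j m := by unfold mv; split_ifs <;> omega
      have e7 : coc i (mv j m) = σ i := by unfold coc; split_ifs <;> first | rfl | omega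
      rw [e7]
      unfold coc
      split_ifs with c1 c2
      · simp
      · exact σ_comm h
      · exact σ_comm (by omega)

theorem mv_braid (i m : ℕ) : mv i (mv (i + 1) (mv i m)) = mv (i + 1) (mv i (mv (i + 1) m)) := by
  unfold mv; split_ifs <;> omega

theorem coc_braid (i m : ℕ) :
    coc i (mv (i + 1) (mv i m)) * coc (i + 1) (mv i m) * coc i m =
      coc (i + 1) (mv i (mv (i + 1) m)) * coc i (mv (i + 1) m) * coc (i + 1) m := by
  rcases lt_trichotomy m i with h1 | h1 | h1
  · obtain ⟨k, rfl⟩ : ∃ k, i = k + 1 := ⟨i - 1, by omega⟩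
    have e1 : mv (k + 1) m = m := by unfold mv; split_ifs <;> omega
    have e2 : mv (k + 1 + 1) m = m := by unfold mv; split_ifs <;> omega
    have e3 : coc (k + 1) m = σ k := by
      unfold coc; split_ifs <;> first | rfl | omega
    have e4 : coc (k + 1 + 1) m = σ (k + 1) := by
      unfold coc; split_ifs <;> first | rfl | omega
    rw [e1, e2, e1, e3, e4]
    exact σ_braid k
  · subst h1
    have e1 : mv m m = m + 1 := by unfold mv; split_ifs <;> omega
    have e2 : mv (m + 1) (m + 1) = m + 2 := by unfold mv; split_ifs <;> omega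
    have e3 : mv (m + 1) m = m := by unfold mv; split_ifs <;> omega
    have c1 : coc m m = 1 := by unfold coc; split_ifs <;> first | rfl | omega
    have c2 : coc (m + 1) (m + 1) = 1 := by unfold coc; split_ifs <;> first | rfl | omega
    have c3 : coc m (m + 2) = σ m := by unfold coc; split_ifs <;> first | rfl | omega
    have c4 : coc (m + 1) m = σ m := by unfold coc; split_ifs <;> first | rfl | omega
    rw [e1, e3, e1, e2, c1, c2, c3, c4]
    simp
  · rcases Nat.lt_or_ge m (i + 2) with h2 | h2
    · obtain rfl : m = i + 1 := by omega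
      have e1 : mv i (i + 1) = i := by unfold mv; split_ifs <;> omega
      have e2 : mv (i + 1) i = i := by unfold mv; split_ifs <;> omega
      have e3 : mv (i + 1) (i + 1) = i + 2 := by unfold mv; split_ifs <;> omega
      have e4 : mv i (i + 2) = i + 2 := by unfold mv; split_ifs <;> omega
      have c1 : coc i i = 1 := by unfold coc; split_ifs <;> first | rfl | omega
      have c2 : coc (i + 1) i = σ i := by unfold coc; split_ifs <;> first | rfl | omega
      have c3 : coc i (i + 1) = 1 := by unfold coc; split_ifs <;> first | rfl | omega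
      have c4 : coc i (i + 2) = σ i := by unfold coc; split_ifs <;> first | rfl | omega
      have c5 : coc (i + 1) (i + 2) = 1 := by unfold coc; split_ifs <;> first | rfl | omega
      have c6 : coc (i + 1) (i + 1) = 1 := by unfold coc; split_ifs <;> first | rfl | omega
      rw [e1, e2, e3, e4, c1, c2, c3, c4, c5, c6]
    · rcases Nat.lt_or_ge m (i + 3) with h3 | h3
      · obtain rfl : m = i + 2 := by omega
        have e1 : mv i (i + 2) = i + 2 := by unfold mv; split_ifs <;> omega
        have e2 : mv (i + 1) (i + 2) = i + 1 := by unfold mv; split_ifs <;> omega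
        have e3 : mv i (i + 1) = i := by unfold mv; split_ifs <;> omega
        have c1 : coc i (i + 1) = 1 := by unfold coc; split_ifs <;> first | rfl | omega
        have c2 : coc (i + 1) (i + 2) = 1 := by unfold coc; split_ifs <;> first | rfl | omega
        have c3 : coc i (i + 2) = σ i := by unfold coc; split_ifs <;> first | rfl | omega
        have c4 : coc (i + 1) i = σ i := by unfold coc; split_ifs <;> first | rfl | omega
        rw [e1, e2, e3, c1, c2, c3, c4]
        simp
      · have e1 : mv i m = m := by unfold mv; split_ifs <;> omega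
        have e2 : mv (i + 1) m = m := by unfold mv; split_ifs <;> omega
        have e3 : coc i m = σ i := by
          unfold coc; split_ifs <;> first | rfl | omega
        have e4 : coc (i + 1) m = σ (i + 1) := by
          unfold coc; split_ifs <;> first | rfl | omega
        rw [e1, e2, e1, e3, e4]
        exact σ_braid i

/-- The action of `BInf` on `ℕ × BInf` forgetting one strand. -/
def Φ : BInf →* Equiv.Perm (ℕ × BInf) :=
  lift actP
    (fun i j h => by
      ext1 ⟨m, g⟩
      rw [Equiv.Perm.mul_apply, Equiv.Perm.mul_apply]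
      simp only [actP_apply]
      rw [mv_comm i j m h, ← mul_assoc, ← mul_assoc, coc_comm i j m h])
    (fun i => by
      ext1 ⟨m, g⟩
      simp only [Equiv.Perm.mul_apply, actP_apply]
      rw [mv_braid i m, ← mul_assoc, ← mul_assoc, ← mul_assoc, ← mul_assoc, coc_braid i m])

@[simp] theorem Φ_σ (i : ℕ) : Φ (σ i) = actP i := lift_σ _ _ _ i

theorem Φ_sh (y : BInf) (g : BInf) : Φ (sh y) (0, g) = (0, y * g) := by
  induction y using ind generalizing g with
  | h1 => simp
  | hmul x y hx hy => rw [map_mul, map_mul, Equiv.Perm.mul_apply, hy, hx, mul_assoc]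
  | hinv x hx =>
    rw [map_inv, map_inv, Equiv.Perm.inv_eq_iff_eq, hx]
    simp
  | hσ i =>
    rw [sh_σ, Φ_σ, actP_apply]
    have e1 : mv (i + 1) 0 = 0 := by unfold mv; split_ifs <;> omega
    have e2 : coc (i + 1) 0 = σ i := by simp [coc]
    rw [e1, e2]

theorem sh_injective : Function.Injective sh := by
  intro x y h
  have h1 := Φ_sh x 1
  have h2 := Φ_sh y 1
  rw [h, h2] at h1
  simpa using (congrArg Prod.snd h1).symm

theorem Φ_mem {N : ℕ} {x : BInf} (hx : x ∈ Bn (N + 1)) :
    ∀ m g, m ≤ N → g ∈ Bn N → (Φ x (m, g)).1 ≤ N ∧ (Φ x (m, g)).2 ∈ Bn N := by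
  have key : ∀ i m, i + 1 < N + 1 → m ≤ N → mv i m ≤ N ∧ coc i m ∈ Bn N := by
    intro i m hi hm
    refine ⟨by unfold mv; split_ifs <;> omega, ?_⟩
    unfold coc
    split_ifs with c1 c2
    · exact one_mem _
    · exact σ_mem (by omega)
    · exact σ_mem (by omega)
  induction hx using Subgroup.closure_induction'' with
  | mem x hx =>
    obtain ⟨i, hi, rfl⟩ := hx
    intro m g hm hg
    rw [Φ_σ, actP_apply]
    exact ⟨(key i m hi hm).1, mul_mem (key i m hi hm).2 hg⟩
  | inv_mem x hx =>
    obtain ⟨i, hi, rfl⟩ := hx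
    intro m g hm hg
    rw [map_inv, Φ_σ]
    change mv i m ≤ N ∧ (coc i m)⁻¹ * g ∈ Bn N
    exact ⟨(key i m hi hm).1, mul_mem (inv_mem (key i m hi hm).2) hg⟩
  | one => intro m g hm hg; simpa using ⟨hm, hg⟩
  | mul x y _ _ hx hy =>
    intro m g hm hg
    rw [map_mul, Equiv.Perm.mul_apply]
    have h1 := hy m g hm hg
    exact hx _ _ h1.1 h1.2

/-- The intersection lemma. -/
theorem mem_of_sh_mem {N : ℕ} {y : BInf} (h : sh y ∈ Bn (N + 1)) : y ∈ Bn N := by
  have h1 := Φ_mem h 0 1 (Nat.zero_le _) (one_mem _)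
  rw [Φ_sh] at h1
  simpa using h1.2

/-! ### Lists -/

/-- `δ k = σ (k-1) ⋯ σ 0`. -/
def δ : ℕ → BInf
  | 0 => 1
  | k + 1 => sh (δ k) * σ 0

theorem δ_mem (k : ℕ) : δ k ∈ Bn (k + 1) := by
  induction k with
  | zero => exact one_mem _
  | succ k ih => exact mul_mem (sh_mem ih) (σ_mem (by omega))

/-- The product `a₁ sh(a₂) sh²(a₃) ⋯`. -/
def br : List BInf → BInf
  | [] => 1
  | a :: l => a * sh (br l)

/-- The element `a₁ ∧ (a₂ ∧ (⋯ (aₖ ∧ 1)))`. -/
def app : List BInf → BInf
  | [] => 1
  | a :: l => op a (app l)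

theorem app_eq (l : List BInf) : app l = br l * δ l.length * (sh (br l))⁻¹ := by
  induction l with
  | nil => simp [app, br, δ]
  | cons a l ih =>
    simp only [app, br, List.length_cons, δ, op, ih, map_mul, map_inv, mul_inv_rev]
    have h := σ_zero_comm_sh_sh (br l)
    have h' : (sh (sh (br l)))⁻¹ * σ 0 = σ 0 * (sh (sh (br l)))⁻¹ := by
      rw [inv_mul_eq_iff_eq_mul, ← mul_assoc, ← h]
      group
    simp only [mul_assoc]
    congr 3
    rw [← mul_assoc, h', mul_assoc]

theorem special_app {l : List BInf} (h : ∀ a ∈ l, Special a) : Special (app l) := by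
  induction l with
  | nil => exact Special.one
  | cons a l ih =>
    exact Special.op (h a (by simp)) (ih (fun b hb => h b (by simp [hb])))

theorem exists_app {z : BInf} (h : Special z) : ∃ l : List BInf, (∀ a ∈ l, Special a) ∧ z = app l := by
  induction h with
  | one => exact ⟨[], by simp, rfl⟩
  | @op a b ha hb iha ihb =>
    obtain ⟨l, hl, rfl⟩ := ihb
    refine ⟨a :: l, ?_, rfl⟩
    intro c hc
    rcases List.mem_cons.1 hc with rfl | hc
    · exact ha
    · exact hl c hc

theorem σ_δ {i k : ℕ} (h : i + 1 < k) : σ i * δ k = δ k * σ (i + 1) := by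
  induction k generalizing i with
  | zero => omega
  | succ k ih =>
    rcases Nat.eq_zero_or_pos i with rfl | hi
    · obtain ⟨k, rfl⟩ : ∃ k', k = k' + 1 := ⟨k - 1, by omega⟩
      simp only [δ, map_mul, sh_σ]
      have h1 := σ_zero_comm_sh_sh (δ k)
      calc σ 0 * (sh (sh (δ k)) * σ (0 + 1) * σ 0) = (σ 0 * sh (sh (δ k))) * (σ 1 * σ 0) := by
            simp only [zero_add, mul_assoc]
        _ = sh (sh (δ k)) * (σ 0 * σ (0 + 1) * σ 0) := by rw [h1]; simp only [zero_add, mul_assoc]
        _ = sh (sh (δ k)) * σ (0 + 1) * σ 0 * σ (0 + 1) := by rw [σ_braid]; simp only [mul_assoc]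
    · obtain ⟨j, rfl⟩ : ∃ j, i = j + 1 := ⟨i - 1, by omega⟩
      have h1 := congrArg sh (ih (i := j) (by omega))
      rw [map_mul, map_mul, sh_σ, sh_σ] at h1
      have h2 : σ 0 * σ (j + 1 + 1) = σ (j + 1 + 1) * σ 0 := σ_comm (by omega)
      simp only [δ]
      rw [← mul_assoc, h1, mul_assoc, ← h2, mul_assoc]

theorem mul_δ {k : ℕ} {A : BInf} (h : A ∈ Bn k) : A * δ k = δ k * sh A := by
  induction h using Subgroup.closure_induction with
  | mem x hx => obtain ⟨i, hi, rfl⟩ := hx; rw [sh_σ]; exact σ_δ hi
  | one => simp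
  | mul x y _ _ hx hy => rw [map_mul, mul_assoc, hy, ← mul_assoc, hx, mul_assoc]
  | inv x _ hx =>
    rw [map_inv, inv_mul_eq_iff_eq_mul, ← mul_assoc, hx]
    group

/-! ### Permutations -/

/-- The permutation of `ℕ` attached to a braid. -/
def π : BInf →* Equiv.Perm ℕ :=
  lift (fun i => ⟨mv i, mv i, mv_mv i, mv_mv i⟩)
    (fun i j h => by ext m; exact mv_comm i j m h)
    (fun i => by ext m; exact mv_braid i m)

theorem π_σ (i m : ℕ) : π (σ i) m = mv i m := by
  simp [π]

theorem π_sh (x : BInf) (m : ℕ) : π (sh x) (m + 1) = π x m + 1 := by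
  induction x using ind generalizing m with
  | h1 => simp
  | hmul x y hx hy => rw [map_mul, map_mul, Equiv.Perm.mul_apply, hy, hx, map_mul,
      Equiv.Perm.mul_apply]
  | hinv x hx =>
    rw [map_inv, map_inv, map_inv, Equiv.Perm.inv_eq_iff_eq, hx]
    simp
  | hσ i =>
    rw [sh_σ, π_σ, π_σ]
    simp only [mv]
    split_ifs <;> omega

theorem π_δ (k : ℕ) : π (δ k) 0 = k := by
  induction k with
  | zero => simp [δ]
  | succ k ih =>
    rw [δ, map_mul, Equiv.Perm.mul_apply, π_σ]
    have : mv 0 0 = 0 + 1 := by simp [mv]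
    rw [this, π_sh, ih]

theorem π_mem {n : ℕ} {x : BInf} (hx : x ∈ Bn n) {m : ℕ} (hm : m < n) : π x m < n := by
  induction hx using Subgroup.closure_induction'' generalizing m with
  | mem x hx =>
    obtain ⟨i, hi, rfl⟩ := hx
    rw [π_σ]; unfold mv; split_ifs <;> omega
  | inv_mem x hx =>
    obtain ⟨i, hi, rfl⟩ := hx
    rw [map_inv]
    have : (π (σ i))⁻¹ m = mv i m := by
      rw [Equiv.Perm.inv_eq_iff_eq, π_σ, mv_mv]
    rw [this]; unfold mv; split_ifs <;> omega
  | one => simpa using hm
  | mul x y _ _ hx hy => rw [map_mul, Equiv.Perm.mul_apply]; exact hx (hy hm)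

/-- Which special braids lie in `Bn (n + 1)`, first half. -/
theorem app_mem {n : ℕ} {l : List BInf} (h : app l ∈ Bn (n + 1)) :
    l.length ≤ n ∧ br l ∈ Bn n := by
  obtain ⟨M, hM⟩ := exists_mem_Bn (br l)
  have hs : sh (br l) = (app l)⁻¹ * br l * δ l.length := by
    rw [app_eq]; group
  have desc : ∀ d, ∀ N, N = max n l.length + d → br l ∈ Bn N → br l ∈ Bn (max n l.length) := by
    intro d
    induction d with
    | zero => rintro N rfl h; exact h
    | succ d ih =>
      rintro N rfl hN
      refine ih _ rfl (mem_of_sh_mem ?_)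
      rw [hs]
      refine mul_mem (mul_mem (inv_mem (Bn_mono ?_ h)) (Bn_mono ?_ hN)) (Bn_mono ?_ (δ_mem _))
      · omega
      · omega
      · omega
  have h0 : br l ∈ Bn (max n l.length) :=
    desc (max n l.length + M - max n l.length) _ rfl (Bn_mono (by omega) hM)
  rcases Nat.lt_or_ge n l.length with hlt | hge
  · exfalso
    have e : max n l.length = l.length := by omega
    rw [e] at h0
    have h1 : app l = δ l.length := by
      rw [app_eq, mul_δ h0]; group
    rw [h1] at h
    have h2 := π_mem h (m := 0) (by omega)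
    rw [π_δ] at h2
    omega
  · have e : max n l.length = n := by omega
    rw [e] at h0
    exact ⟨hge, h0⟩

/-- Which special braids lie in `Bn (n + 1)`, second half. -/
theorem mem_app {n : ℕ} {l : List BInf} (h1 : l.length ≤ n) (h2 : br l ∈ Bn n) :
    app l ∈ Bn (n + 1) := by
  rw [app_eq]
  exact mul_mem (mul_mem (Bn_mono (by omega) h2) (Bn_mono (by omega) (δ_mem _)))
    (inv_mem (sh_mem h2))

theorem app_eq_δ {n : ℕ} {l : List BInf} (h1 : l.length = n) (h2 : br l ∈ Bn n) :
    app l = δ n := by
  rw [app_eq, h1, mul_δ h2]; group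

end SpecialBraids
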