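import Pool.Agent.Helper181_Braid.Small

/-!
# Crossings of several strands and the monoid of cosets
-/

namespace SpecialBraids

/-- The iterated shift. -/
def shn : ℕ → BInf →* BInf
  | 0 => MonoidHom.id _
  | k + 1 => sh.comp (shn k)

@[simp] theorem shn_zero (x : BInf) : shn 0 x = x := rfl

theorem shn_succ (k : ℕ) (x : BInf) : shn (k + 1) x = sh (shn k x) := rfl

@[simp] theorem shn_one (x : BInf) : shn 1 x = sh x := rfl

theorem shn_add (k l : ℕ) (x : BInf) : shn (k + l) x = shn k (shn l x) := by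
  induction k with
  | zero => simp
  | succ k ih => rw [show k + 1 + l = (k + l) + 1 by ring, shn_succ, ih, shn_succ]

theorem shn_succ' (k : ℕ) (x : BInf) : shn (k + 1) x = shn k (sh x) := shn_add k 1 x

theorem shn_comm (k l : ℕ) (x : BInf) : shn k (shn l x) = shn l (shn k x) := by
  rw [← shn_add, ← shn_add, add_comm]

theorem shn_σ (k i : ℕ) : shn k (σ i) = σ (i + k) := by
  induction k with
  | zero => rfl
  | succ k ih => rw [shn_succ, ih, sh_σ]; rfl

theorem shn_mem {k n : ℕ} {x : BInf} (hx : x ∈ Bn n) : shn k x ∈ Bn (k + n) := by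
  induction k with
  | zero => simpa using hx
  | succ k ih => rw [shn_succ, show k + 1 + n = (k + n) + 1 by ring]; exact sh_mem ih

theorem comm_shn {n : ℕ} {x : BInf} (hx : x ∈ Bn n) (z : BInf) :
    x * shn n z = shn n z * x := by
  change Commute x (shn n z)
  induction z using ind with
  | h1 => rw [map_one]; exact Commute.one_right _
  | hmul a b ha hb => rw [map_mul]; exact ha.mul_right hb
  | hinv a ha => rw [map_inv]; exact ha.inv_right
  | hσ j =>
    rw [shn_σ]
    induction hx using Subgroup.closure_induction with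
    | mem x hx => obtain ⟨i, hi, rfl⟩ := hx; exact σ_comm (by omega)
    | one => exact Commute.one_left _
    | mul x y _ _ hx hy => exact hx.mul_left hy
    | inv x _ hx => exact hx.inv_left

/-- The braid in which `k` strands cross over `l` strands. -/
def X (k : ℕ) : ℕ → BInf
  | 0 => 1
  | l + 1 => δ k * sh (X k l)

@[simp] theorem X_zero (k : ℕ) : X k 0 = 1 := rfl

theorem X_succ (k l : ℕ) : X k (l + 1) = δ k * sh (X k l) := rfl

theorem X_one (k : ℕ) : X k 1 = δ k := by simp [X]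

theorem X_add_right (k l m : ℕ) : X k (l + m) = X k l * shn l (X k m) := by
  induction l with
  | zero => simp
  | succ l ih =>
    rw [show l + 1 + m = (l + m) + 1 by ring, X_succ, ih, X_succ, map_mul, shn_succ, mul_assoc]

theorem δ_add (k m : ℕ) : δ (k + m) = shn k (δ m) * δ k := by
  induction k with
  | zero => simp [δ]
  | succ k ih =>
    rw [show k + 1 + m = (k + m) + 1 by ring]
    simp only [δ]
    rw [ih, map_mul, shn_succ, mul_assoc]

theorem X_zero_left (l : ℕ) : X 0 l = 1 := by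
  induction l with
  | zero => rfl
  | succ l ih => rw [X_succ, ih]; simp [δ]

theorem X_mem (k l : ℕ) : X k l ∈ Bn (k + l) := by
  induction l with
  | zero => exact one_mem _
  | succ l ih =>
    rw [X_succ]
    exact mul_mem (Bn_mono (by omega) (δ_mem k)) (sh_mem ih)

theorem X_add_left (k m l : ℕ) : X (k + m) l = shn k (X m l) * X k l := by
  induction l with
  | zero => simp
  | succ l ih =>
    rw [X_succ, ih, δ_add, X_succ, X_succ, map_mul, map_mul]
    have h := comm_shn (δ_mem k) (X m l)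
    rw [← shn_succ, ← shn_succ' k (X m l)]
    calc shn k (δ m) * δ k * (shn (k + 1) (X m l) * sh (X k l))
        = shn k (δ m) * (δ k * shn (k + 1) (X m l)) * sh (X k l) := by simp only [mul_assoc]
      _ = shn k (δ m) * (shn (k + 1) (X m l) * δ k) * sh (X k l) := by rw [h]
      _ = _ := by simp only [mul_assoc]

theorem mul_X {k : ℕ} {b : BInf} (hb : b ∈ Bn k) (l : ℕ) : b * X k l = X k l * shn l b := by
  induction l with
  | zero => simp
  | succ l ih =>
    rw [X_succ, ← mul_assoc, mul_δ hb, mul_assoc, ← map_mul, ih, map_mul, shn_succ, mul_assoc]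

theorem σ_X_one {i l : ℕ} (h : i + 1 < l) : σ (i + 1) * X 1 l = X 1 l * σ i := by
  induction l generalizing i with
  | zero => omega
  | succ l ih =>
    rw [X_succ]
    have hδ : δ 1 = σ 0 := by simp [δ]
    rw [hδ]
    rcases Nat.eq_zero_or_pos i with rfl | hi
    · obtain ⟨l, rfl⟩ : ∃ l', l = l' + 1 := ⟨l - 1, by omega⟩
      rw [X_succ, hδ, map_mul, sh_σ]
      have h1 := σ_zero_comm_sh_sh (X 1 l)
      calc σ (0 + 1) * (σ 0 * (σ (0 + 1) * sh (sh (X 1 l))))
          = (σ (0 + 1) * σ 0 * σ (0 + 1)) * sh (sh (X 1 l)) := by simp only [mul_assoc]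
        _ = (σ 0 * σ (0 + 1) * σ 0) * sh (sh (X 1 l)) := by rw [σ_braid]
        _ = σ 0 * σ (0 + 1) * (σ 0 * sh (sh (X 1 l))) := by simp only [mul_assoc]
        _ = σ 0 * (σ (0 + 1) * sh (sh (X 1 l))) * σ 0 := by rw [h1]; simp only [mul_assoc]
    · obtain ⟨j, rfl⟩ : ∃ j, i = j + 1 := ⟨i - 1, by omega⟩
      have h1 := congrArg sh (ih (i := j) (by omega))
      rw [map_mul, map_mul, sh_σ, sh_σ] at h1
      have h2 : σ 0 * σ (j + 1 + 1) = σ (j + 1 + 1) * σ 0 := σ_comm (by omega)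
      rw [← mul_assoc, ← h2, mul_assoc, h1, mul_assoc]

theorem sh_mul_X_one {l : ℕ} {b : BInf} (hb : b ∈ Bn l) : sh b * X 1 l = X 1 l * b := by
  induction hb using Subgroup.closure_induction with
  | mem x hx => obtain ⟨i, hi, rfl⟩ := hx; rw [sh_σ]; exact σ_X_one hi
  | one => simp
  | mul x y _ _ hx hy => rw [map_mul, mul_assoc, hy, ← mul_assoc, hx, mul_assoc]
  | inv x _ hx =>
    rw [map_inv, inv_mul_eq_iff_eq_mul, ← mul_assoc, hx]
    group

theorem shn_mul_X {l : ℕ} {b : BInf} (hb : b ∈ Bn l) (k : ℕ) : shn k b * X k l = X k l * b := by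
  induction k with
  | zero => simp [X_zero_left]
  | succ k ih =>
    rw [show k + 1 = 1 + k by ring, X_add_left, shn_add, shn_one, shn_one]
    rw [← mul_assoc, ← map_mul, ih, map_mul, mul_assoc, sh_mul_X_one hb, mul_assoc]

/-! ### The monoid of cosets -/

/-- The equivalence relation of cosets. -/
def cosetRel : Setoid (ℕ × BInf) where
  r a b := a.1 = b.1 ∧ a.2⁻¹ * b.2 ∈ Bn a.1
  iseqv :=
    { refl := fun a => ⟨rfl, by simp [one_mem]⟩
      symm := by
        rintro ⟨k, g⟩ ⟨l, h⟩ ⟨h1, h2⟩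
        obtain rfl : k = l := h1
        refine ⟨rfl, ?_⟩
        have := inv_mem h2
        simpa using this
      trans := by
        rintro ⟨k, g⟩ ⟨l, h⟩ ⟨m, i⟩ ⟨h1, h2⟩ ⟨h3, h4⟩
        obtain rfl : k = l := h1
        obtain rfl : k = m := h3
        refine ⟨rfl, ?_⟩
        have := mul_mem h2 h4
        simpa [mul_assoc] using this }

/-- The set of all cosets `g * Bn k`, with `k` remembered. -/
def Q : Type := Quotient cosetRel

/-- The coset of a braid. -/
def Q.mk (k : ℕ) (g : BInf) : Q := Quotient.mk cosetRel (k, g)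

theorem Q.mk_eq {k l : ℕ} {g h : BInf} : Q.mk k g = Q.mk l h ↔ k = l ∧ g⁻¹ * h ∈ Bn k := by
  constructor
  · intro e; exact Quotient.exact (s := cosetRel) e
  · intro e; exact Quotient.sound (s := cosetRel) e

theorem Q.mk_mul {k : ℕ} {g b : BInf} (hb : b ∈ Bn k) : Q.mk k (g * b) = Q.mk k g := by
  rw [Q.mk_eq]
  refine ⟨rfl, ?_⟩
  have := inv_mem hb
  simpa using this

theorem Q.exists_rep (v : Q) : ∃ k g, v = Q.mk k g := by
  induction v using Quotient.inductionOn with
  | h a => exact ⟨a.1, a.2, rfl⟩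

/-- The degree. -/
def Q.deg : Q → ℕ := Quotient.lift (fun a : ℕ × BInf => a.1) (fun _ _ h => h.1)

@[simp] theorem Q.deg_mk (k : ℕ) (g : BInf) : (Q.mk k g).deg = k := rfl

/-- Composition of cosets. -/
def Q.o : Q → Q → Q :=
  Quotient.map₂ (fun a b : ℕ × BInf => (a.1 + b.1, a.2 * shn a.1 b.2)) (by
    rintro ⟨k, g⟩ ⟨k', g'⟩ ⟨h1, h2⟩ ⟨l, h⟩ ⟨l', h'⟩ ⟨h3, h4⟩
    obtain rfl : k = k' := h1
    obtain rfl : l = l' := h3
    simp only at h2 h4
    refine ⟨rfl, ?_⟩
    obtain ⟨b, rfl⟩ : ∃ b, g' = g * b := ⟨g⁻¹ * g', by group⟩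
    obtain ⟨c, rfl⟩ : ∃ c, h' = h * c := ⟨h⁻¹ * h', by group⟩
    rw [inv_mul_cancel_left] at h2 h4
    simp only
    have e : (g * shn k h)⁻¹ * (g * b * shn k (h * c)) = b * shn k c := by
      rw [map_mul]
      have := comm_shn h2 h
      calc (g * shn k h)⁻¹ * (g * b * (shn k h * shn k c))
          = (shn k h)⁻¹ * (b * shn k h) * shn k c := by group
        _ = _ := by rw [this]; group
    rw [e]
    exact mul_mem (Bn_mono (by omega) h2) (shn_mem h4))

theorem Q.o_mk (k l : ℕ) (g h : BInf) : Q.o (Q.mk k g) (Q.mk l h) = Q.mk (k + l) (g * shn k h) :=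
  rfl

/-- The representative of the product of two cosets. -/
def pp (k l : ℕ) (g h : BInf) : BInf := g * shn k h * X k l * (shn l g)⁻¹

/-- The self-distributive operation on cosets. -/
def Q.p : Q → Q → Q :=
  Quotient.map₂ (fun a b : ℕ × BInf => (b.1, pp a.1 b.1 a.2 b.2)) (by
    rintro ⟨k, g⟩ ⟨k', g'⟩ ⟨h1, h2⟩ ⟨l, h⟩ ⟨l', h'⟩ ⟨h3, h4⟩
    obtain rfl : k = k' := h1
    obtain rfl : l = l' := h3
    simp only at h2 h4
    refine ⟨rfl, ?_⟩
    obtain ⟨b, rfl⟩ : ∃ b, g' = g * b := ⟨g⁻¹ * g', by group⟩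
    obtain ⟨c, rfl⟩ : ∃ c, h' = h * c := ⟨h⁻¹ * h', by group⟩
    rw [inv_mul_cancel_left] at h2 h4
    simp only [pp]
    have c1 := comm_shn h2 h
    have c2 := mul_X h2 l
    have c3 := shn_mul_X h4 k
    have c4 := comm_shn h4 b
    have c5 := comm_shn h4 g
    have e : g * b * shn k (h * c) * X k l * (shn l (g * b))⁻¹ =
        g * shn k h * X k l * (shn l g)⁻¹ * c := by
      rw [map_mul, map_mul, mul_inv_rev]
      calc g * b * (shn k h * shn k c) * X k l * ((shn l b)⁻¹ * (shn l g)⁻¹)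
          = g * (b * shn k h) * (shn k c * X k l) * ((shn l b)⁻¹ * (shn l g)⁻¹) := by
            simp only [mul_assoc]
        _ = g * shn k h * (b * X k l) * c * ((shn l b)⁻¹ * (shn l g)⁻¹) := by
            rw [c1, c3]; simp only [mul_assoc]
        _ = g * shn k h * X k l * (shn l b * c * (shn l b)⁻¹) * (shn l g)⁻¹ := by
            rw [c2]; simp only [mul_assoc]
        _ = g * shn k h * X k l * (c * (shn l g)⁻¹) := by
            rw [← c4]; simp only [mul_assoc, mul_inv_cancel, mul_one]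
        _ = g * shn k h * X k l * ((shn l g)⁻¹ * c) := by
            congr 1
            rw [eq_inv_mul_iff_mul_eq, ← mul_assoc, ← c5]; group
        _ = _ := by simp only [mul_assoc]
    rw [e, inv_mul_cancel_left]
    exact h4)

theorem Q.p_mk (k l : ℕ) (g h : BInf) : Q.p (Q.mk k g) (Q.mk l h) = Q.mk l (pp k l g h) := rfl

theorem Q.oassoc (a b c : Q) : Q.o (Q.o a b) c = Q.o a (Q.o b c) := by
  obtain ⟨k, g, rfl⟩ := Q.exists_rep a
  obtain ⟨l, h, rfl⟩ := Q.exists_rep b
  obtain ⟨m, i, rfl⟩ := Q.exists_rep c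
  rw [Q.o_mk, Q.o_mk, Q.o_mk, Q.o_mk, map_mul, ← shn_add, mul_assoc, add_assoc]

theorem Q.po (a b c : Q) : Q.p (Q.o a b) c = Q.p a (Q.p b c) := by
  obtain ⟨k, g, rfl⟩ := Q.exists_rep a
  obtain ⟨l, h, rfl⟩ := Q.exists_rep b
  obtain ⟨m, i, rfl⟩ := Q.exists_rep c
  rw [Q.o_mk, Q.p_mk, Q.p_mk, Q.p_mk]
  congr 1
  simp only [pp]
  rw [X_add_left]
  simp only [map_mul, map_inv, mul_inv_rev, shn_add]
  have h1 := comm_shn (X_mem k m) h
  rw [add_comm k m, shn_add] at h1
  have h2 : X k m * (shn m (shn k h))⁻¹ = (shn m (shn k h))⁻¹ * X k m := by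
    rw [eq_inv_mul_iff_mul_eq, ← mul_assoc, ← h1]; group
  rw [shn_comm k m h]
  simp only [mul_assoc]
  congr 4
  rw [← mul_assoc, h2, mul_assoc]

theorem Q.op (a b c : Q) : Q.p a (Q.o b c) = Q.o (Q.p a b) (Q.p a c) := by
  obtain ⟨k, g, rfl⟩ := Q.exists_rep a
  obtain ⟨l, h, rfl⟩ := Q.exists_rep b
  obtain ⟨m, i, rfl⟩ := Q.exists_rep c
  rw [Q.o_mk, Q.p_mk, Q.p_mk, Q.p_mk, Q.o_mk]
  congr 1
  simp only [pp]
  rw [X_add_right]
  simp only [map_mul, map_inv, shn_add]
  have h1 := comm_shn (X_mem k l) i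
  rw [shn_add] at h1
  rw [shn_comm l k i]
  simp only [mul_assoc, inv_mul_cancel_left]
  congr 2
  rw [← mul_assoc, ← h1, mul_assoc]

theorem Q.oo (a b : Q) : Q.o a b = Q.o (Q.p a b) a := by
  obtain ⟨k, g, rfl⟩ := Q.exists_rep a
  obtain ⟨l, h, rfl⟩ := Q.exists_rep b
  rw [Q.o_mk, Q.p_mk, Q.o_mk, add_comm l k]
  simp only [pp]
  rw [inv_mul_cancel_right, Q.mk_mul (X_mem k l)]

/-- The cosets generated by the trivial braid. -/
inductive Gen : Q → Prop
  | x : Gen (Q.mk 1 1)
  | p {a b : Q} : Gen a → Gen b → Gen (Q.p a b)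
  | o {a b : Q} : Gen a → Gen b → Gen (Q.o a b)

/-- The monoid of cosets generated by the trivial braid. -/
def P : Type := {v : Q // Gen v}

theorem Gen.deg_pos {v : Q} (h : Gen v) : 1 ≤ v.deg := by
  induction h with
  | x => exact le_refl 1
  | @p a b _ _ _ hb =>
    obtain ⟨k, g, rfl⟩ := Q.exists_rep a
    obtain ⟨l, h, rfl⟩ := Q.exists_rep b
    exact hb
  | @o a b _ _ ha hb =>
    obtain ⟨k, g, rfl⟩ := Q.exists_rep a
    obtain ⟨l, h, rfl⟩ := Q.exists_rep b
    rw [Q.o_mk, Q.deg_mk]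
    rw [Q.deg_mk] at ha
    omega

end SpecialBraids
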