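import Pool.Agent.Helper181_Braid.Base

/-!
# Small cases and the infinite family
-/

namespace SpecialBraids

/-! ### The Burau action at `t = -1` -/

/-- The permutation of `ℕ → ℤ` given by `σ i`. -/
def buP (i : ℕ) : Equiv.Perm (ℕ → ℤ) where
  toFun v j := if j = i then 2 * v i - v (i + 1) else if j = i + 1 then v i else v j
  invFun v j := if j = i then v (i + 1) else if j = i + 1 then 2 * v (i + 1) - v i else v j
  left_inv v := by
    funext j
    by_cases h1 : j = i
    · subst h1; simp
    · by_cases h2 : j = i + 1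
      · subst h2; simp
      · simp [h1, h2]
  right_inv v := by
    funext j
    by_cases h1 : j = i
    · subst h1; simp
    · by_cases h2 : j = i + 1
      · subst h2; simp
      · simp [h1, h2]

theorem buP_apply (i : ℕ) (v : ℕ → ℤ) (j : ℕ) :
    buP i v j = if j = i then 2 * v i - v (i + 1) else if j = i + 1 then v i else v j := rfl

/-- The Burau representation at `t = -1`. -/
def bu : BInf →* Equiv.Perm (ℕ → ℤ) :=
  lift buP
    (fun i k h => by
      ext v j
      simp only [Equiv.Perm.mul_apply, buP_apply]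
      split_ifs <;> first | rfl | omega)
    (fun i => by
      ext v j
      simp only [Equiv.Perm.mul_apply, buP_apply]
      split_ifs <;> first | rfl | omega)

@[simp] theorem bu_σ (i : ℕ) : bu (σ i) = buP i := lift_σ _ _ _ i

/-- The powers of the matrices. -/
theorem buP_pow (i k : ℕ) (v : ℕ → ℤ) (j : ℕ) :
    (buP i ^ k) v j = if j = i then (1 + k) * v i - k * v (i + 1)
      else if j = i + 1 then k * v i + (1 - k) * v (i + 1) else v j := by
  induction k generalizing j with
  | zero => simp only [pow_zero, Equiv.Perm.coe_one, id_eq]; split_ifs <;> simp_all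
  | succ k ih =>
    rw [pow_succ', Equiv.Perm.mul_apply, buP_apply, ih, ih, ih]
    split_ifs with h1 h2 h3 <;> first | omega | (push_cast; ring)

theorem buP_pow_inv (i k : ℕ) (v : ℕ → ℤ) (j : ℕ) :
    ((buP i ^ k)⁻¹) v j = if j = i then (1 - k) * v i + k * v (i + 1)
      else if j = i + 1 then - k * v i + (1 + k) * v (i + 1) else v j := by
  have h : (buP i ^ k)⁻¹ v = fun j => if j = i then (1 - k) * v i + k * v (i + 1)
      else if j = i + 1 then - k * v i + (1 + k) * v (i + 1) else v j := by
    rw [Equiv.Perm.inv_eq_iff_eq]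
    funext j
    rw [buP_pow]
    by_cases h1 : j = i
    · subst h1; simp; ring
    · by_cases h2 : j = i + 1
      · subst h2; simp; ring
      · simp [h1, h2]
  rw [h]

theorem buP_pow_symm (i k : ℕ) (v : ℕ → ℤ) (j : ℕ) :
    (Equiv.symm (buP i ^ k)) v j = if j = i then (1 - k) * v i + k * v (i + 1)
      else if j = i + 1 then - k * v i + (1 + k) * v (i + 1) else v j :=
  buP_pow_inv i k v j

/-- The first basis vector is fixed by shifted braids. -/
theorem bu_sh (x : BInf) : bu (sh x) (Pi.single 0 1) = Pi.single 0 1 := by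
  induction x using ind with
  | h1 => simp
  | hmul x y hx hy => rw [map_mul, map_mul, Equiv.Perm.mul_apply, hy, hx]
  | hinv x hx => rw [map_inv, map_inv, Equiv.Perm.inv_eq_iff_eq, hx]
  | hσ i =>
    funext j
    rw [sh_σ, bu_σ, buP_apply]
    by_cases h1 : j = i + 1
    · subst h1; simp
    · by_cases h2 : j = i + 1 + 1
      · subst h2; simp
      · rw [if_neg h1, if_neg h2]

/-! ### The family -/

/-- The sequence `1, 1 ∧ 1, (1 ∧ 1) ∧ 1, ...`, each term being the previous one applied to the
one before. -/
def fam : ℕ → BInf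
  | 0 => 1
  | 1 => op 1 1
  | k + 2 => op (fam (k + 1)) (fam k)

theorem fam_special : ∀ k, Special (fam k)
  | 0 => Special.one
  | 1 => Special.op Special.one Special.one
  | k + 2 => Special.op (fam_special (k + 1)) (fam_special k)

theorem fam_mul (k : ℕ) : fam (k + 1) * sh (fam k) = σ 0 ^ (k + 1) := by
  induction k with
  | zero => simp [fam, op]
  | succ k ih =>
    rw [fam, op, ih, pow_succ (σ 0) (k + 1)]
    group

/-- The words of the family. -/
theorem fam_word (k : ℕ) :
    br [fam (k + 1), op (fam k) (fam k)] = σ 0 ^ (k + 1) * (σ 2 ^ k * σ 1 * (σ 2 ^ k)⁻¹) := by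
  have h1 : sh (sh (fam k)) * σ 1 * (sh (sh (fam k)))⁻¹ = σ 2 ^ k * σ 1 * (σ 2 ^ k)⁻¹ := by
    cases k with
    | zero => simp [fam]
    | succ k =>
      have h2 : fam (k + 1) = σ 0 ^ (k + 1) * (sh (fam k))⁻¹ := by
        rw [← fam_mul]; group
      have h3 := congrArg sh (σ_zero_comm_sh_sh (fam k))
      rw [map_mul, map_mul, sh_σ, zero_add] at h3
      rw [h2]
      simp only [map_mul, map_inv, map_pow, sh_σ, zero_add, mul_inv_rev, inv_inv]
      have h4 : (sh (sh (sh (fam k))))⁻¹ * σ 1 * sh (sh (sh (fam k))) = σ 1 := by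
        rw [mul_assoc, h3]; group
      calc _ = σ (1 + 1) ^ (k + 1) * ((sh (sh (sh (fam k))))⁻¹ * σ 1 * sh (sh (sh (fam k)))) *
              (σ (1 + 1) ^ (k + 1))⁻¹ := by simp only [mul_assoc]
        _ = _ := by rw [h4]
  simp only [br, op, map_mul, map_inv, sh_σ, map_one, mul_one, zero_add]
  calc _ = (fam (k + 1) * sh (fam k)) * (sh (sh (fam k)) * σ 1 * (sh (sh (fam k)))⁻¹) := by
        simp only [mul_assoc]
    _ = _ := by rw [h1, fam_mul]

/-- The family of special braids on five strands. -/
def zz (k : ℕ) : BInf := app [fam (k + 1), op (fam k) (fam k)]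

theorem zz_special (k : ℕ) : Special (zz k) := by
  refine special_app ?_
  intro a ha
  simp only [List.mem_cons, List.not_mem_nil, or_false] at ha
  rcases ha with rfl | rfl
  · exact fam_special _
  · exact Special.op (fam_special _) (fam_special _)

theorem zz_mem (k : ℕ) : zz k ∈ Bn 5 := by
  refine mem_app (by simp) ?_
  rw [fam_word]
  exact mul_mem (pow_mem (σ_mem (by omega)) _) (mul_mem (mul_mem (pow_mem (σ_mem (by omega)) _)
    (σ_mem (by omega))) (inv_mem (pow_mem (σ_mem (by omega)) _)))

theorem bu_zz (k : ℕ) : bu (zz k) (Pi.single 0 1) 3 = k * (k + 1) := by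
  rw [zz, app_eq, ← map_inv, map_mul, Equiv.Perm.mul_apply, bu_sh, fam_word]
  simp only [List.length_cons, List.length_nil, δ, map_mul, map_inv, map_pow, map_one,
    Equiv.Perm.mul_apply, sh_σ, bu_σ, one_mul, zero_add]
  rw [buP_pow]
  norm_num
  rw [buP_pow]
  norm_num
  simp only [buP_pow_symm, buP_apply]
  norm_num [Pi.single_apply]
  ring

theorem zz_injective : Function.Injective zz := by
  intro k l h
  have h1 := bu_zz k
  rw [h, bu_zz l] at h1
  have h2 : (l : ℤ) = k := by nlinarith [Int.natCast_nonneg k, Int.natCast_nonneg l]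
  exact_mod_cast h2.symm

/-- There are infinitely many special braids on `n ≥ 5` strands. -/
theorem infinite_of_five_le {n : ℕ} (h : 5 ≤ n) : (specialIn n).Infinite :=
  (Set.infinite_range_of_injective zz_injective).mono (by
    rintro _ ⟨k, rfl⟩
    exact ⟨zz_special k, Bn_mono h (zz_mem k)⟩)

end SpecialBraids
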