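import Pool.Agent.Helper181_Braid.Larue
import Pool.Agent.Helper754_LD.Order

/-!
# The monoid of cosets generated by the trivial braid
-/

noncomputable section

namespace SpecialBraids

open LDMon

/-- Every element generated by the trivial braid can be reached inside `P`. -/
theorem P.ind' (q : P → Prop) (hx : q ⟨Q.mk 1 1, Gen.x⟩)
    (hp : ∀ a b : P, q a → q b → q ⟨Q.p a.1 b.1, Gen.p a.2 b.2⟩)
    (ho : ∀ a b : P, q a → q b → q ⟨Q.o a.1 b.1, Gen.o a.2 b.2⟩) (v : P) : q v := by
  obtain ⟨v, hv⟩ := v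
  induction hv with
  | x => exact hx
  | @p a b ha hb iha ihb => exact hp ⟨a, ha⟩ ⟨b, hb⟩ iha ihb
  | @o a b ha hb iha ihb => exact ho ⟨a, ha⟩ ⟨b, hb⟩ iha ihb

instance instLDM : LDM P where
  x := ⟨Q.mk 1 1, Gen.x⟩
  o a b := ⟨Q.o a.1 b.1, Gen.o a.2 b.2⟩
  p a b := ⟨Q.p a.1 b.1, Gen.p a.2 b.2⟩
  deg a := a.1.deg
  oassoc a b c := Subtype.ext (Q.oassoc a.1 b.1 c.1)
  po a b c := Subtype.ext (Q.po a.1 b.1 c.1)
  op a b c := Subtype.ext (Q.op a.1 b.1 c.1)
  oo a b := Subtype.ext (Q.oo a.1 b.1)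
  deg_x := rfl
  deg_o a b := by
    obtain ⟨k, g, e1⟩ := Q.exists_rep a.1
    obtain ⟨l, h, e2⟩ := Q.exists_rep b.1
    change (Q.o a.1 b.1).deg = a.1.deg + b.1.deg
    rw [e1, e2]; rfl
  deg_p a b := by
    obtain ⟨k, g, e1⟩ := Q.exists_rep a.1
    obtain ⟨l, h, e2⟩ := Q.exists_rep b.1
    change (Q.p a.1 b.1).deg = b.1.deg
    rw [e1, e2]; rfl
  ind := P.ind'

theorem R_of_lt {a b : P} (h : lt a b) : Q.R a.1 b.1 := by
  induction h with
  | p1 a b => exact Q.R_p a.2.deg_pos b.2.deg_pos
  | o1 a b => exact Q.R_o a.2.deg_pos b.2.deg_pos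
  | trans _ _ h1 h2 => exact Q.R_trans h1 h2

theorem P.irr (s : P) (hs : LDM.deg s = 1) : ¬ lt s s := fun h => Q.irr hs (R_of_lt h)

theorem P.hR (a b q d : P) (h : le a q) : LDM.o a b ≠ LDM.p q d := by
  intro e
  refine Q.hR a.2.deg_pos q.2.deg_pos d.2.deg_pos (b := b.1) ?_ (congrArg Subtype.val e)
  rcases h with rfl | h
  · exact Or.inl rfl
  · exact Or.inr (R_of_lt h)

instance instLDMH : LDMH P where
  irr1 := P.irr
  R := P.hR

/-! ### Special braids and elements of degree one -/

theorem p_one_one (s t : BInf) : Q.p (Q.mk 1 s) (Q.mk 1 t) = Q.mk 1 (op s t) := by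
  rw [Q.p_mk, pp, X_one]
  simp [op, δ]

theorem gen_of_special {s : BInf} (h : Special s) : Gen (Q.mk 1 s) := by
  induction h with
  | one => exact Gen.x
  | op _ _ iha ihb => rw [← p_one_one]; exact Gen.p iha ihb

/-- The element of `P` given by a special braid. -/
def emb (s : BInf) (h : Special s) : P := ⟨Q.mk 1 s, gen_of_special h⟩

theorem emb_inj {s t : BInf} {hs : Special s} {ht : Special t} (h : emb s hs = emb t ht) :
    s = t := Q.mk_one_inj (congrArg Subtype.val h)

theorem p_emb {s t : BInf} (hs : Special s) (ht : Special t) :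
    LDM.p (emb s hs) (emb t ht) = emb (op s t) (Special.op hs ht) :=
  Subtype.ext (p_one_one s t)

theorem x_eq : (LDM.x : P) = emb 1 Special.one := rfl

/-- The classification of pairs, as a statement about one-generated monoids. -/
def MainStatement : Prop :=
  ∀ s t : P, LDM.deg s = 1 → LDM.deg t = 1 →
    LDM.o s (LDM.o t LDM.x) = LDM.o LDM.x (LDM.o LDM.x LDM.x) →
      LDM.p s (LDM.p t LDM.x) = LDM.p LDM.x (LDM.p LDM.x LDM.x) ∨
      LDM.p s (LDM.p t LDM.x) = LDM.p LDM.x (LDM.p (LDM.p LDM.x LDM.x) LDM.x) ∨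
      LDM.p s (LDM.p t LDM.x) =
        LDM.p (LDM.p LDM.x LDM.x) (LDM.p (LDM.p LDM.x LDM.x) LDM.x) ∨
      LDM.p s (LDM.p t LDM.x) =
        LDM.p (LDM.p (LDM.p LDM.x LDM.x) LDM.x) (LDM.p LDM.x LDM.x)

theorem app_two (hmain : MainStatement) {s t : BInf} (hs : Special s) (ht : Special t)
    (h : s * sh t ∈ Bn 3) :
    app [s, t] = app [1, 1] ∨ app [s, t] = app [1, σ 0] ∨ app [s, t] = app [σ 0, σ 0] ∨
      app [s, t] = app [s2, 1] := by
  have e : LDM.o (emb s hs) (LDM.o (emb t ht) LDM.x) =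
      LDM.o (LDM.x : P) (LDM.o LDM.x LDM.x) := by
    apply Subtype.ext
    change Q.o (Q.mk 1 s) (Q.o (Q.mk 1 t) (Q.mk 1 1)) = Q.o (Q.mk 1 1) (Q.o (Q.mk 1 1) (Q.mk 1 1))
    simp only [Q.o_mk, map_one, mul_one, shn_one]
    rw [Q.mk_eq]
    refine ⟨rfl, ?_⟩
    have := inv_mem h
    simpa using this
  have h1 := hmain _ _ rfl rfl e
  have h2 : Special (op (1 : BInf) 1) := Special.op Special.one Special.one
  simp only [x_eq, p_emb] at h1
  have e1 : op (σ 0) 1 = s2 := by simp [op, s2]
  rcases h1 with h1 | h1 | h1 | h1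
  · left
    have := emb_inj h1
    simpa only [app] using this
  · right; left
    have := emb_inj h1
    simpa only [app, op_one_one] using this
  · right; right; left
    have := emb_inj h1
    simpa only [app, op_one_one] using this
  · right; right; right
    have := emb_inj h1
    simpa only [app, op_one_one, e1] using this

theorem specialIn_four (hmain : MainStatement) : specialIn 4 = app '' {l | l ∈ tenLists} := by
  ext z
  constructor
  · intro hz
    obtain ⟨l, hl, h1, h2, rfl⟩ := special_iff.1 hz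
    match l, h1 with
    | [], _ => exact ⟨[], by simp [tenLists], rfl⟩
    | [a], _ =>
      have ha : a ∈ specialIn 3 := ⟨hl a (by simp), by simpa [br] using h2⟩
      rw [specialIn_three] at ha
      rcases ha with rfl | rfl | rfl | rfl
      · exact ⟨[1], by simp [tenLists], rfl⟩
      · exact ⟨[σ 0], by simp [tenLists], rfl⟩
      · exact ⟨[s2], by simp [tenLists], rfl⟩
      · exact ⟨[s3], by simp [tenLists], rfl⟩
    | [a, b], _ =>
      have ha := hl a (by simp)
      have hb := hl b (by simp)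
      have h3 : a * sh b ∈ Bn 3 := by simpa [br] using h2
      rcases app_two hmain ha hb h3 with h | h | h | h
      · exact ⟨[1, 1], by simp [tenLists], h.symm⟩
      · exact ⟨[1, σ 0], by simp [tenLists], h.symm⟩
      · exact ⟨[σ 0, σ 0], by simp [tenLists], h.symm⟩
      · exact ⟨[s2, 1], by simp [tenLists], h.symm⟩
    | [a, b, c], _ =>
      refine ⟨[1, 1, 1], by simp [tenLists], ?_⟩
      rw [app_eq_δ (n := 3) rfl h2, app_eq_δ (n := 3) rfl (by simp [br, one_mem])]
  · rintro ⟨l, hl, rfl⟩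
    exact tenLists_mem hl

theorem encard_specialIn_four (hmain : MainStatement) : (specialIn 4).encard = 10 := by
  apply le_antisymm _ ten_le
  rw [specialIn_four hmain]
  refine (Set.encard_image_le _ _).trans ?_
  classical
  have : {l | l ∈ tenLists} = ((tenLists.toFinset : Finset (List BInf)) : Set (List BInf)) := by
    ext l
    simp only [Set.mem_ofPred_eq, Finset.mem_coe, List.mem_toFinset]
  rw [this, Set.encard_coe_eq_coe_finsetCard]
  have h := List.toFinset_card_le tenLists
  have h' : tenLists.length = 10 := rfl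
  rw [h'] at h
  exact_mod_cast h

end SpecialBraids
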