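import Pool.Agent.Helper181_Braid.Cross

/-!
# The action on the free group
-/

noncomputable section

namespace SpecialBraids

/-- The free group. -/
abbrev F := FreeGroup ℕ

/-- The generators of the free group. -/
abbrev xx (j : ℕ) : F := FreeGroup.of j

/-- The image of the generators under `σ i`. -/
def aF (i : ℕ) : F →* F :=
  FreeGroup.lift (fun j => if j = i then xx i * xx (i + 1) * (xx i)⁻¹
    else if j = i + 1 then xx i else xx j)

/-- The image of the generators under the inverse of `σ i`. -/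
def aG (i : ℕ) : F →* F :=
  FreeGroup.lift (fun j => if j = i then xx (i + 1)
    else if j = i + 1 then (xx (i + 1))⁻¹ * xx i * xx (i + 1) else xx j)

theorem aF_of (i j : ℕ) : aF i (xx j) = if j = i then xx i * xx (i + 1) * (xx i)⁻¹
    else if j = i + 1 then xx i else xx j := by
  simp [aF]

theorem aG_of (i j : ℕ) : aG i (xx j) = if j = i then xx (i + 1)
    else if j = i + 1 then (xx (i + 1))⁻¹ * xx i * xx (i + 1) else xx j := by
  simp [aG]

theorem aF_self (i : ℕ) : aF i (xx i) = xx i * xx (i + 1) * (xx i)⁻¹ := by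
  rw [aF_of, if_pos rfl]

theorem aF_succ (i : ℕ) : aF i (xx (i + 1)) = xx i := by
  rw [aF_of, if_neg (by omega), if_pos rfl]

theorem aF_other {i j : ℕ} (h1 : j ≠ i) (h2 : j ≠ i + 1) : aF i (xx j) = xx j := by
  rw [aF_of, if_neg h1, if_neg h2]

theorem aG_self (i : ℕ) : aG i (xx i) = xx (i + 1) := by
  rw [aG_of, if_pos rfl]

theorem aG_succ (i : ℕ) : aG i (xx (i + 1)) = (xx (i + 1))⁻¹ * xx i * xx (i + 1) := by
  rw [aG_of, if_neg (by omega), if_pos rfl]

theorem aG_other {i j : ℕ} (h1 : j ≠ i) (h2 : j ≠ i + 1) : aG i (xx j) = xx j := by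
  rw [aG_of, if_neg h1, if_neg h2]

theorem aF_aG (i : ℕ) : (aF i).comp (aG i) = MonoidHom.id _ := by
  ext j
  simp only [MonoidHom.comp_apply, MonoidHom.id_apply]
  by_cases h1 : j = i
  · subst h1; rw [aG_self, aF_succ]
  · by_cases h2 : j = i + 1
    · subst h2; rw [aG_succ, map_mul, map_mul, map_inv, aF_self, aF_succ]; group
    · rw [aG_other h1 h2, aF_other h1 h2]

theorem aG_aF (i : ℕ) : (aG i).comp (aF i) = MonoidHom.id _ := by
  ext j
  simp only [MonoidHom.comp_apply, MonoidHom.id_apply]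
  by_cases h1 : j = i
  · subst h1; rw [aF_self, map_mul, map_mul, map_inv, aG_self, aG_succ]; group
  · by_cases h2 : j = i + 1
    · subst h2; rw [aF_succ, aG_self]
    · rw [aF_other h1 h2, aG_other h1 h2]

/-- The automorphism given by `σ i`. -/
def aE (i : ℕ) : MulAut F := MulEquiv.ofBijective (aF i) (by
  constructor
  · intro x y h
    have := congrArg (aG i) h
    rwa [← MonoidHom.comp_apply, ← MonoidHom.comp_apply, aG_aF] at this
  · intro y
    exact ⟨aG i y, by rw [← MonoidHom.comp_apply, aF_aG]; rfl⟩)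

theorem aE_apply (i : ℕ) (w : F) : aE i w = aF i w := rfl

theorem MulAut_ext_of {f g : MulAut F} (h : ∀ j, f (xx j) = g (xx j)) : f = g := by
  have : (f : F ≃* F).toMonoidHom = (g : F ≃* F).toMonoidHom := by
    ext j
    exact h j
  ext w
  exact DFunLike.congr_fun this w

/-- The action of the braid group on the free group. -/
def act : BInf →* MulAut F :=
  lift aE
    (fun i j h => by
      apply MulAut_ext_of
      intro k
      simp only [MulAut.mul_apply, aE_apply]
      by_cases h1 : k = i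
      · subst h1
        rw [aF_other (i := j) (by omega) (by omega), aF_self, map_mul, map_mul, map_inv,
          aF_other (i := j) (by omega) (by omega), aF_other (i := j) (by omega) (by omega)]
      · by_cases h2 : k = i + 1
        · subst h2
          rw [aF_other (i := j) (by omega) (by omega), aF_succ,
            aF_other (i := j) (by omega) (by omega)]
        · by_cases h3 : k = j
          · subst h3
            rw [aF_other (i := i) h1 h2, aF_self, map_mul, map_mul, map_inv,
              aF_other (i := i) h1 h2, aF_other (i := i) (by omega) (by omega)]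
          · by_cases h4 : k = j + 1
            · subst h4
              rw [aF_other (i := i) (by omega) (by omega), aF_succ,
                aF_other (i := i) (by omega) (by omega)]
            · rw [aF_other (i := i) h1 h2, aF_other (i := j) h3 h4, aF_other (i := i) h1 h2])
    (fun i => by
      apply MulAut_ext_of
      intro k
      simp only [MulAut.mul_apply, aE_apply]
      by_cases h1 : k = i
      · subst h1
        simp only [aF_self, aF_succ, map_mul, map_inv,
          aF_other (i := k) (j := k + 1 + 1) (by omega) (by omega),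
          aF_other (i := k + 1) (j := k) (by omega) (by omega)]
        group
      · by_cases h2 : k = i + 1
        · subst h2
          simp only [aF_self, aF_succ, map_mul, map_inv,
            aF_other (i := i) (j := i + 1 + 1) (by omega) (by omega),
            aF_other (i := i + 1) (j := i) (by omega) (by omega)]
        · by_cases h3 : k = i + 1 + 1
          · subst h3
            simp only [aF_succ,
              aF_other (i := i) (j := i + 1 + 1) (by omega) (by omega),
              aF_other (i := i + 1) (j := i) (by omega) (by omega)]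
          · rw [aF_other (i := i) h1 h2, aF_other (i := i + 1) h2 h3, aF_other (i := i) h1 h2,
              aF_other (i := i + 1) h2 h3])

@[simp] theorem act_σ (i : ℕ) (w : F) : act (σ i) w = aF i w := by
  rw [act, lift_σ]; rfl

theorem act_mul (g h : BInf) (w : F) : act (g * h) w = act g (act h w) := by
  rw [map_mul, MulAut.mul_apply]

theorem act_inv_act (g : BInf) (w : F) : act g⁻¹ (act g w) = w := by
  rw [← act_mul]; simp

theorem act_act_inv (g : BInf) (w : F) : act g (act g⁻¹ w) = w := by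
  rw [← act_mul]; simp

theorem act_inv_eq {g : BInf} {v w : F} (h : act g w = v) : act g⁻¹ v = w := by
  rw [← h, act_inv_act]

/-- The shift of the free group. -/
def sF : F →* F := FreeGroup.map Nat.succ

@[simp] theorem sF_of (j : ℕ) : sF (xx j) = xx (j + 1) := by simp [sF]

/-- The shift acts compatibly. -/
theorem act_sh (g : BInf) (w : F) : act (sh g) (sF w) = sF (act g w) := by
  have hfix : ∀ i : ℕ, ∀ w, aF (i + 1) (sF w) = sF (aF i w) := by
    intro i w
    have : (aF (i + 1)).comp sF = sF.comp (aF i) := by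
      ext j
      simp only [MonoidHom.comp_apply, sF_of]
      rw [aF_of, aF_of]
      simp only [Nat.add_right_cancel_iff]
      split_ifs <;> simp
    exact DFunLike.congr_fun this w
  induction g using ind generalizing w with
  | h1 => simp
  | hmul x y hx hy => rw [map_mul, act_mul, hy, hx, act_mul]
  | hinv x hx =>
    rw [map_inv]
    apply act_inv_eq
    rw [hx, act_act_inv]
  | hσ i => rw [sh_σ, act_σ, act_σ, hfix]

theorem act_sh_zero (g : BInf) : act (sh g) (xx 0) = xx 0 := by
  induction g using ind with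
  | h1 => simp
  | hmul x y hx hy => rw [map_mul, act_mul, hy, hx]
  | hinv x hx => rw [map_inv]; exact act_inv_eq hx
  | hσ i => rw [sh_σ, act_σ, aF_other (by omega) (by omega)]

/-! ### The set of words ending in a given letter -/

/-- The indicator function of the set of elements whose reduced word ends in the letter `a`. -/
def io (a : ℕ × Bool) (w : F) : ℤ := if w.toWord.getLast? = some a then 1 else 0

theorem io_nonneg (a : ℕ × Bool) (w : F) : 0 ≤ io a w := by
  unfold io; split_ifs <;> simp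

theorem io_one (a : ℕ × Bool) : io a 1 = 0 := by simp [io]

theorem toWord_mk_mul (b : ℕ × Bool) (w : F) :
    (FreeGroup.mk [b] * w).toWord = FreeGroup.reduce (b :: w.toWord) := by
  rw [FreeGroup.toWord_mul]
  simp [FreeGroup.toWord_mk]

theorem eq_one_iff (w : F) : w = 1 ↔ w.toWord = [] := by
  rw [← FreeGroup.toWord_eq_nil_iff]

theorem io_mk_mul (a b : ℕ × Bool) (w : F) :
    io a (FreeGroup.mk [b] * w) = io a w + (if w = 1 ∧ a = b then 1 else 0)
      - (if FreeGroup.mk [b] * w = 1 ∧ a = (b.1, !b.2) then 1 else 0) := by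
  simp only [io, eq_one_iff, toWord_mk_mul]
  rw [FreeGroup.reduce.cons, FreeGroup.reduce_toWord]
  obtain ⟨b1, b2⟩ := b
  obtain ⟨a1, a2⟩ := a
  cases hL : w.toWord with
  | nil =>
    by_cases h : (b1, b2) = (a1, a2)
    · simp [h]
    · have h' : (a1, a2) ≠ (b1, b2) := fun e => h e.symm
      simp [h, h']
  | cons hd tl =>
    obtain ⟨c1, c2⟩ := hd
    simp only
    by_cases hc : b1 = c1 ∧ b2 = !c2
    · obtain ⟨rfl, rfl⟩ := hc
      simp only [and_self, if_true, Bool.not_not]
      cases tl with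
      | nil =>
        by_cases h : (b1, c2) = (a1, a2)
        · simp [h]
        · have h' : (a1, a2) ≠ (b1, c2) := fun e => h e.symm
          simp [h, h']
      | cons d tl => simp
    · simp [hc]

theorem io_of_mul (a : ℕ × Bool) (j : ℕ) (w : F) :
    io a (xx j * w) = io a w + (if w = 1 ∧ a = (j, true) then 1 else 0)
      - (if xx j * w = 1 ∧ a = (j, false) then 1 else 0) := io_mk_mul a (j, true) w

theorem fun_ext {f g : F → ℤ} (h1 : f 1 = g 1)
    (h : ∀ j w, f (xx j * w) - f w = g (xx j * w) - g w) (w : F) : f w = g w := by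
  have key : ∀ v w, f (v * w) - f w = g (v * w) - g w := by
    intro v
    induction v using FreeGroup.induction_on with
    | C1 => intro w; simp
    | of j => exact h j
    | inv_of j _ =>
      intro w
      have := h j ((xx j)⁻¹ * w)
      rw [mul_inv_cancel_left] at this
      linarith
    | mul x y hx hy =>
      intro w
      have h1 := hx (y * w)
      have h2 := hy w
      rw [mul_assoc]
      linarith
  have := key w 1
  rw [mul_one, h1] at this
  linarith

theorem io_sF_mul (e : Bool) (u v : F) : io (0, e) (sF u * v) = io (0, e) v := by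
  induction u using FreeGroup.induction_on generalizing v with
  | C1 => simp
  | of j =>
    rw [sF_of, io_of_mul]
    simp
  | inv_of j _ =>
    have := io_of_mul (0, e) (j + 1) ((xx (j + 1))⁻¹ * v)
    rw [mul_inv_cancel_left] at this
    rw [map_inv, sF_of, this]
    simp
  | mul x y hx hy => rw [map_mul, mul_assoc, hx, hy]

theorem io_sF (e : Bool) (u : F) : io (0, e) (sF u) = 0 := by
  have := io_sF_mul e u 1
  rwa [mul_one, io_one] at this

theorem io_x0_inv : io (0, false) (xx 0)⁻¹ = 1 := by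
  have := io_of_mul (0, false) 0 (xx 0)⁻¹
  rw [mul_inv_cancel, io_one] at this
  simp at this
  omega

theorem io_x0_mul (v : F) : io (0, false) (xx 0 * v) = io (0, false) v -
    (if xx 0 * v = 1 then 1 else 0) := by
  rw [io_of_mul]; simp

theorem xx_sF_ne (u : F) : xx 0 * sF u ≠ 1 := by
  intro h
  have h1 := io_x0_mul (sF u)
  rw [h, io_one, io_sF] at h1
  simp at h1

theorem io_x0_sF (u : F) : io (0, false) (xx 0 * sF u) = 0 := by
  rw [io_x0_mul, io_sF, if_neg (xx_sF_ne u)]; simp

theorem sF_injective : Function.Injective sF := FreeGroup.map_injective Nat.succ_injective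

theorem io_conj {u : F} (hu : u ≠ 1) : io (0, false) (xx 0 * sF u * (xx 0)⁻¹) = 1 := by
  rw [mul_assoc, io_x0_mul, io_sF_mul, io_x0_inv, if_neg]
  · simp
  · intro h
    apply hu
    apply sF_injective
    rw [map_one]
    have : sF u = (xx 0)⁻¹ * (xx 0 * (sF u * (xx 0)⁻¹)) * xx 0 := by group
    rw [this, h]; group

theorem act_sh_xx_succ (g : BInf) (j : ℕ) : act (sh g) (xx (j + 1)) = sF (act g (xx j)) := by
  rw [← sF_of, act_sh]

theorem act_eq_one {g : BInf} {w : F} : act g w = 1 ↔ w = 1 := by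
  constructor
  · intro h
    have := congrArg (act g⁻¹) h
    rwa [act_inv_act, map_one] at this
  · rintro rfl; rw [map_one]

/-- Shifted braids preserve the set of words ending in `x₀⁻¹`. -/
theorem io_act_sh (g : BInf) (w : F) : io (0, false) (act (sh g) w) = io (0, false) w := by
  refine fun_ext (f := fun w => io (0, false) (act (sh g) w)) (g := io (0, false)) ?_ ?_ w
  · simp only [map_one]
  · intro j w
    rw [map_mul]
    cases j with
    | zero =>
      rw [act_sh_zero, io_x0_mul, io_x0_mul]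
      have : (xx 0 * act (sh g) w = 1) ↔ (xx 0 * w = 1) := by
        rw [← act_sh_zero g, ← map_mul, act_eq_one, act_sh_zero]
      simp only [this]
      ring
    | succ j =>
      rw [act_sh_xx_succ, io_sF_mul]
      have := io_sF_mul false (xx j) w
      rw [sF_of] at this
      rw [this]
      ring

/-- The first generator and the set of words ending in `x₀⁻¹`. -/
theorem io_act_σ (w : F) : io (0, false) (act (σ 0) w) =
    io (0, false) w + io (0, true) w + io (1, false) w := by
  refine fun_ext (f := fun w => io (0, false) (act (σ 0) w))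
    (g := fun w => io (0, false) w + io (0, true) w + io (1, false) w) ?_ ?_ w
  · simp only [map_one, io_one]; rfl
  · intro j w
    rw [map_mul]
    set v := act (σ 0) w with hv
    have hw : ∀ u : F, act (σ 0) u * v = 1 ↔ u * w = 1 := by
      intro u
      rw [hv, ← map_mul, act_eq_one]
    have hw1 : v = 1 ↔ w = 1 := by rw [hv, act_eq_one]
    rcases j with _ | _ | j
    · have e0 : act (σ 0) (xx 0) = xx 0 * xx (0 + 1) * (xx 0)⁻¹ := by rw [act_σ, aF_self]
      have h0 := hw (xx 0)
      rw [e0] at h0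
      rw [e0]
      have e1 : xx 0 * xx (0 + 1) * (xx 0)⁻¹ * v = xx 0 * (sF (xx 0) * ((xx 0)⁻¹ * v)) := by
        rw [sF_of]; group
      have e2 := io_x0_mul ((xx 0)⁻¹ * v)
      rw [mul_inv_cancel_left] at e2
      rw [e1] at h0 ⊢
      rw [io_x0_mul, io_sF_mul]
      simp only [h0, hw1] at e2 ⊢
      rw [io_of_mul (0, false) 0 w, io_of_mul (0, true) 0 w, io_of_mul (1, false) 0 w]
      simp
      linarith
    · have e0 : act (σ 0) (xx (0 + 1)) = xx 0 := by rw [act_σ, aF_succ]
      have h0 := hw (xx (0 + 1))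
      rw [e0] at h0 ⊢
      rw [io_x0_mul]
      simp only [h0]
      rw [io_of_mul (0, false) (0 + 1) w, io_of_mul (0, true) (0 + 1) w,
        io_of_mul (1, false) (0 + 1) w]
      simp
    · have e0 : act (σ 0) (xx (j + 1 + 1)) = xx (j + 1 + 1) := by
        rw [act_σ, aF_other (by omega) (by omega)]
      rw [e0]
      rw [io_of_mul (0, false) (j + 1 + 1) w, io_of_mul (0, true) (j + 1 + 1) w,
        io_of_mul (1, false) (j + 1 + 1) w, io_of_mul (0, false) (j + 1 + 1) v]
      simp

/-- The words ending in `x₀⁻¹`. -/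
def W (w : F) : Prop := io (0, false) w = 1

theorem io_le_one (a : ℕ × Bool) (w : F) : io a w ≤ 1 := by
  unfold io; split_ifs <;> simp

theorem W_act_sh {w : F} (h : W w) (g : BInf) : W (act (sh g) w) := by
  unfold W; rw [io_act_sh]; exact h

theorem W_act_σ {w : F} (h : W w) : W (act (σ 0) w) := by
  unfold W at *
  have h1 := io_act_σ w
  have h2 := io_nonneg (0, true) w
  have h3 := io_nonneg (1, false) w
  have h4 := io_le_one (0, false) (act (σ 0) w)
  omega

/-- Positive braids in the sense of the braid ordering. -/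
inductive Pos : BInf → Prop
  | base (a b : BInf) : Pos (sh a * σ 0 * sh b)
  | mul {x y : BInf} : Pos x → Pos y → Pos (x * y)

/-- Shifted or positive. -/
def SP (z : BInf) : Prop := (∃ a, z = sh a) ∨ Pos z

theorem Pos.sh_mul {z : BInf} (h : Pos z) (a : BInf) : Pos (sh a * z) := by
  induction h with
  | base b c => rw [← mul_assoc, ← mul_assoc, ← map_mul]; exact Pos.base _ _
  | mul _ hy ihx _ => rw [← mul_assoc]; exact Pos.mul ihx hy

theorem Pos.mul_sh {z : BInf} (h : Pos z) (a : BInf) : Pos (z * sh a) := by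
  induction h with
  | base b c => rw [mul_assoc, ← map_mul]; exact Pos.base _ _
  | mul hx _ _ ihy => rw [mul_assoc]; exact Pos.mul hx ihy

theorem SP.mul_pos {z y : BInf} (h : SP z) (hy : Pos y) : Pos (z * y) := by
  rcases h with ⟨a, rfl⟩ | h
  · exact hy.sh_mul a
  · exact h.mul hy

theorem SP.mul {z y : BInf} (h : SP z) (hy : SP y) : SP (z * y) := by
  rcases hy with ⟨a, rfl⟩ | hy
  · rcases h with ⟨b, rfl⟩ | h
    · left; exact ⟨b * a, by rw [map_mul]⟩
    · right; exact h.mul_sh a
  · right; exact h.mul_pos hy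

theorem Pos.W {z : BInf} (h : Pos z) {w : F} (hw : W w) : SpecialBraids.W (act z w) := by
  induction h generalizing w with
  | base a b =>
    rw [act_mul, act_mul]
    exact W_act_sh (W_act_σ (W_act_sh hw b)) a
  | mul _ _ ihx ihy => rw [act_mul]; exact ihx (ihy hw)

theorem SP.W {z : BInf} (h : SP z) {w : F} (hw : W w) : SpecialBraids.W (act z w) := by
  rcases h with ⟨a, rfl⟩ | h
  · exact W_act_sh hw a
  · exact h.W hw

theorem Pos.exists_last {z : BInf} (h : Pos z) : ∃ y s, SP y ∧ z = y * σ 0 * sh s := by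
  induction h with
  | base a b => exact ⟨sh a, b, Or.inl ⟨a, rfl⟩, rfl⟩
  | @mul x y hx _ _ ihy =>
    obtain ⟨y', s, h1, h2⟩ := ihy
    exact ⟨x * y', s, SP.mul (Or.inr hx) h1, by rw [h2]; simp only [mul_assoc]⟩

theorem Pos.ne_one {z : BInf} (h : Pos z) : z ≠ 1 := by
  intro h1
  obtain ⟨y, s, hy, h2⟩ := h.exists_last
  have h3 : y * σ 0 = sh s⁻¹ := by
    rw [map_inv, eq_inv_iff_mul_eq_one, ← h2, h1]
  have h4 : act (y * σ 0) (xx (0 + 1))⁻¹ = act y (xx 0)⁻¹ := by
    rw [act_mul, act_σ, map_inv, aF_succ]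
  have h5 := hy.W (w := (xx 0)⁻¹) io_x0_inv
  rw [← h4, h3, map_inv, act_sh_xx_succ, ← map_inv] at h5
  unfold SpecialBraids.W at h5
  rw [io_sF] at h5
  simp at h5

/-! ### The invariant of a coset -/

/-- The iterated shift of the free group. -/
def sFn : ℕ → F →* F
  | 0 => MonoidHom.id _
  | k + 1 => sF.comp (sFn k)

@[simp] theorem sFn_zero (x : F) : sFn 0 x = x := rfl

theorem sFn_succ (k : ℕ) (x : F) : sFn (k + 1) x = sF (sFn k x) := rfl

theorem sFn_injective (k : ℕ) : Function.Injective (sFn k) := by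
  induction k with
  | zero => intro x y h; simpa using h
  | succ k ih => intro x y h; rw [sFn_succ, sFn_succ] at h; exact ih (sF_injective h)

/-- The product of the first generators. -/
def PF : ℕ → F
  | 0 => 1
  | k + 1 => xx 0 * sF (PF k)

theorem PF_succ (k : ℕ) : PF (k + 1) = xx 0 * sF (PF k) := rfl

theorem PF_add (k l : ℕ) : PF (k + l) = PF k * sFn k (PF l) := by
  induction k with
  | zero => simp [PF]
  | succ k ih =>
    rw [show k + 1 + l = (k + l) + 1 by ring, PF_succ, ih, PF_succ, map_mul, sFn_succ, mul_assoc]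

theorem PF_ne {k : ℕ} (hk : 1 ≤ k) : PF k ≠ 1 := by
  obtain ⟨k, rfl⟩ : ∃ k', k = k' + 1 := ⟨k - 1, by omega⟩
  rw [PF_succ]; exact xx_sF_ne _

theorem act_shn (k : ℕ) (h : BInf) (w : F) :
    act (shn k h) (PF k * sFn k w) = PF k * sFn k (act h w) := by
  induction k with
  | zero => simp [PF]
  | succ k ih =>
    have e : ∀ u, PF (k + 1) * sFn (k + 1) u = xx 0 * sF (PF k * sFn k u) := by
      intro u; rw [PF_succ, sFn_succ, map_mul, mul_assoc]
    rw [e, e, shn_succ, map_mul, act_sh_zero, act_sh, ih]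

theorem act_shn_PF (k : ℕ) (h : BInf) : act (shn k h) (PF k) = PF k := by
  have := act_shn k h 1
  simpa using this

theorem act_σ_PF {i k : ℕ} (h : i + 1 < k) : act (σ i) (PF k) = PF k := by
  induction i generalizing k with
  | zero =>
    obtain ⟨k, rfl⟩ : ∃ k', k = k' + 1 + 1 := ⟨k - 2, by omega⟩
    rw [PF_succ, PF_succ, map_mul sF, sF_of, map_mul, map_mul]
    have h1 : act (σ 0) (sF (sF (PF k))) = sF (sF (PF k)) := by
      generalize PF k = u
      have : ((act (σ 0)).toMonoidHom).comp (sF.comp sF) = sF.comp sF := by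
        ext j
        simp only [MonoidHom.comp_apply, sF_of]
        change act (σ 0) (xx (j + 1 + 1)) = _
        rw [act_σ, aF_other (by omega) (by omega)]
      exact DFunLike.congr_fun this u
    rw [h1, act_σ, act_σ, aF_self, aF_succ]
    group
  | succ i ih =>
    obtain ⟨k, rfl⟩ : ∃ k', k = k' + 1 := ⟨k - 1, by omega⟩
    rw [PF_succ, ← sh_σ, map_mul, act_sh_zero, act_sh, ih (by omega)]

theorem act_mem_PF {k : ℕ} {b : BInf} (hb : b ∈ Bn k) : act b (PF k) = PF k := by
  induction hb using Subgroup.closure_induction with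
  | mem x hx => obtain ⟨i, hi, rfl⟩ := hx; exact act_σ_PF hi
  | one => simp
  | mul x y _ _ hx hy => rw [act_mul, hy, hx]
  | inv x _ hx => exact act_inv_eq hx

theorem act_σ_sF_sF (u : F) : act (σ 0) (sF (sF u)) = sF (sF u) := by
  have : ((act (σ 0)).toMonoidHom).comp (sF.comp sF) = sF.comp sF := by
    ext j
    simp only [MonoidHom.comp_apply, sF_of]
    change act (σ 0) (xx (j + 1 + 1)) = _
    rw [act_σ, aF_other (by omega) (by omega)]
  exact DFunLike.congr_fun this u

theorem act_δ (m : ℕ) : act (δ m) (sF (PF m)) = PF m := by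
  induction m with
  | zero => simp [δ, PF]
  | succ m ih =>
    rw [PF_succ, map_mul sF, sF_of, δ, act_mul, map_mul, act_σ_sF_sF, act_σ, aF_succ, map_mul,
      act_sh_zero, act_sh, ih]

theorem act_X (m n : ℕ) : act (X m n) (sFn n (PF m)) = PF m := by
  induction n with
  | zero => simp
  | succ n ih => rw [X_succ, act_mul, sFn_succ, act_sh, ih, act_δ]

theorem act_X_PF (m n : ℕ) :
    act (X m n) (PF n) = PF m * sFn m (PF n) * (PF m)⁻¹ := by
  have h1 := act_mem_PF (X_mem m n)
  have h2 := h1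
  rw [add_comm m n, PF_add, map_mul, act_X, ← PF_add, add_comm n m, PF_add] at h2
  exact eq_mul_inv_of_mul_eq h2

/-- The invariant of a coset. -/
def Q.rho : Q → F := Quotient.lift (fun a : ℕ × BInf => act a.2 (PF a.1)) (by
  rintro ⟨k, g⟩ ⟨k', g'⟩ ⟨h1, h2⟩
  obtain rfl : k = k' := h1
  simp only at h2 ⊢
  obtain ⟨b, rfl⟩ : ∃ b, g' = g * b := ⟨g⁻¹ * g', by group⟩
  rw [inv_mul_cancel_left] at h2
  rw [act_mul, act_mem_PF h2])

theorem Q.rho_mk (k : ℕ) (g : BInf) : Q.rho (Q.mk k g) = act g (PF k) := rfl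

theorem Q.rho_o (k : ℕ) (g : BInf) (b : Q) :
    Q.rho (Q.o (Q.mk k g) b) = act g (PF k * sFn k (Q.rho b)) := by
  obtain ⟨l, h, rfl⟩ := Q.exists_rep b
  rw [Q.o_mk, Q.rho_mk, Q.rho_mk, act_mul, PF_add, act_shn]

theorem Q.rho_p (k : ℕ) (g : BInf) (b : Q) :
    Q.rho (Q.p (Q.mk k g) b) = act g (PF k * sFn k (Q.rho b) * (PF k)⁻¹) := by
  obtain ⟨l, h, rfl⟩ := Q.exists_rep b
  rw [Q.p_mk, Q.rho_mk, Q.rho_mk, pp, act_mul, act_mul, act_mul,
    act_inv_eq (act_shn_PF l g), act_X_PF, map_mul (act (shn k h)), act_shn,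
    map_inv, act_shn_PF]

theorem Q.rho_ne {v : Q} (h : 1 ≤ v.deg) : v.rho ≠ 1 := by
  obtain ⟨k, g, rfl⟩ := Q.exists_rep v
  rw [Q.deg_mk] at h
  rw [Q.rho_mk, Ne, act_eq_one]
  exact PF_ne h

/-! ### The order -/

/-- The relation on cosets reflecting the order. -/
def Q.R (v w : Q) : Prop := ∀ k α, v = Q.mk k α → ∃ l γ, w = Q.mk l γ ∧
  (Pos (α⁻¹ * γ) ∨ ((∃ s, α⁻¹ * γ = sh s) ∧ k < l))

theorem Q.R_o {a b : Q} (ha : 1 ≤ a.deg) (hb : 1 ≤ b.deg) : Q.R a (Q.o a b) := by
  rintro k α rfl
  obtain ⟨l, h, rfl⟩ := Q.exists_rep b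
  rw [Q.deg_mk] at ha hb
  refine ⟨k + l, α * shn k h, Q.o_mk k l α h, Or.inr ⟨?_, by omega⟩⟩
  obtain ⟨k, rfl⟩ : ∃ k', k = k' + 1 := ⟨k - 1, by omega⟩
  exact ⟨shn k h, by rw [inv_mul_cancel_left, shn_succ]⟩

theorem Q.R_p {a b : Q} (ha : 1 ≤ a.deg) (hb : 1 ≤ b.deg) : Q.R a (Q.p a b) := by
  rintro k α rfl
  obtain ⟨l, h, rfl⟩ := Q.exists_rep b
  rw [Q.deg_mk] at ha hb
  refine ⟨l, pp k l α h, Q.p_mk k l α h, Or.inl ?_⟩
  obtain ⟨k, rfl⟩ : ∃ k', k = k' + 1 := ⟨k - 1, by omega⟩
  obtain ⟨l, rfl⟩ : ∃ l', l = l' + 1 := ⟨l - 1, by omega⟩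
  have e : α⁻¹ * pp (k + 1) (l + 1) α h =
      sh (shn k h * δ k) * σ 0 * sh (X (k + 1) l * (shn l α)⁻¹) := by
    rw [pp, X_succ, δ, shn_succ k h, shn_succ l α]
    simp only [map_mul, map_inv, mul_assoc, inv_mul_cancel_left]
  rw [e]
  exact Pos.base _ _

theorem Q.R_trans {u v w : Q} (h1 : Q.R u v) (h2 : Q.R v w) : Q.R u w := by
  rintro k α rfl
  obtain ⟨l, β, rfl, h3⟩ := h1 k α rfl
  obtain ⟨m, γ, rfl, h4⟩ := h2 l β rfl
  refine ⟨m, γ, rfl, ?_⟩
  have e : α⁻¹ * γ = (α⁻¹ * β) * (β⁻¹ * γ) := by group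
  rw [e]
  rcases h3 with h3 | ⟨⟨s, h3⟩, h5⟩
  · left
    rcases h4 with h4 | ⟨⟨t, h4⟩, h6⟩
    · exact h3.mul h4
    · rw [h4]; exact h3.mul_sh t
  · rcases h4 with h4 | ⟨⟨t, h4⟩, h6⟩
    · left; rw [h3]; exact h4.sh_mul s
    · right; exact ⟨⟨s * t, by rw [h3, h4, map_mul]⟩, by omega⟩

theorem Bn_one {x : BInf} (h : x ∈ Bn 1) : x = 1 := by
  induction h using Subgroup.closure_induction with
  | mem x hx => obtain ⟨i, hi, rfl⟩ := hx; omega
  | one => rfl
  | mul x y _ _ hx hy => rw [hx, hy, mul_one]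
  | inv x _ hx => rw [hx, inv_one]

theorem Q.mk_one_inj {g h : BInf} (e : Q.mk 1 g = Q.mk 1 h) : g = h := by
  have := Bn_one (Q.mk_eq.1 e).2
  exact (inv_mul_eq_one.1 this)

/-- Irreflexivity of the order on elements of degree one. -/
theorem Q.irr {s : Q} (hs : s.deg = 1) : ¬ Q.R s s := by
  intro h
  obtain ⟨k, α, rfl⟩ := Q.exists_rep s
  obtain rfl : k = 1 := hs
  obtain ⟨l, γ, h1, h2⟩ := h 1 α rfl
  obtain rfl : 1 = l := (Q.mk_eq.1 h1).1
  obtain rfl := Q.mk_one_inj h1
  rcases h2 with h2 | ⟨_, h2⟩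
  · rw [inv_mul_cancel] at h2
    exact h2.ne_one rfl
  · omega

/-- The order separates the two products. -/
theorem Q.hR {a b q d : Q} (ha : 1 ≤ a.deg) (hq : 1 ≤ q.deg) (hd : 1 ≤ d.deg)
    (h : a = q ∨ Q.R a q) : Q.o a b ≠ Q.p q d := by
  intro e
  obtain ⟨k, α, rfl⟩ := Q.exists_rep a
  obtain ⟨m, κ, rfl, h1⟩ : ∃ m κ, q = Q.mk m κ ∧ (SP (α⁻¹ * κ)) := by
    rcases h with rfl | h
    · exact ⟨k, α, rfl, by rw [inv_mul_cancel]; exact Or.inl ⟨1, by rw [map_one]⟩⟩
    · obtain ⟨m, κ, h1, h2⟩ := h k α rfl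
      refine ⟨m, κ, h1, ?_⟩
      rcases h2 with h2 | ⟨h2, _⟩
      · exact Or.inr h2
      · exact Or.inl h2
  rw [Q.deg_mk] at ha hq
  have e1 := congrArg Q.rho e
  rw [Q.rho_o, Q.rho_p] at e1
  have e2 := act_inv_eq e1.symm
  have e3 : PF k * sFn k (Q.rho b) =
      act (α⁻¹ * κ) (PF m * sFn m (Q.rho d) * (PF m)⁻¹) := by
    rw [act_mul, ← e1, act_inv_act]
  obtain ⟨k, rfl⟩ : ∃ k', k = k' + 1 := ⟨k - 1, by omega⟩
  obtain ⟨m, rfl⟩ : ∃ m', m = m' + 1 := ⟨m - 1, by omega⟩
  have hne : PF m * sFn m (Q.rho d) * (PF m)⁻¹ ≠ 1 := by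
    rw [Ne, mul_inv_eq_one, mul_eq_left]
    intro h
    exact Q.rho_ne hd (sFn_injective m (by rw [h, map_one]))
  have hW : W (PF (m + 1) * sFn (m + 1) (Q.rho d) * (PF (m + 1))⁻¹) := by
    have : PF (m + 1) * sFn (m + 1) (Q.rho d) * (PF (m + 1))⁻¹ =
        xx 0 * sF (PF m * sFn m (Q.rho d) * (PF m)⁻¹) * (xx 0)⁻¹ := by
      rw [PF_succ, sFn_succ]
      simp only [map_mul, map_inv, mul_inv_rev, mul_assoc]
    rw [this]
    exact io_conj hne
  have h2 := h1.W hW
  rw [← e3, PF_succ, sFn_succ, mul_assoc, ← map_mul] at h2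
  unfold W at h2
  rw [io_x0_sF] at h2
  exact zero_ne_one h2

end SpecialBraids
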