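import Pool.Agent.Helper181_Braid.Small

/-!
# Special braids on n strands

There are 1, 2, 4 special braids on 1, 2, 3 strands, at least 10 on 4 strands, and infinitely
many on `n` strands for every `n ≥ 5`.
-/

namespace SpecialBraids.Partial

open SpecialBraids

theorem result :
    (specialIn 1).encard = 1 ∧ (specialIn 2).encard = 2 ∧ (specialIn 3).encard = 4 ∧
      10 ≤ (specialIn 4).encard ∧ ∀ n : ℕ, 5 ≤ n → (specialIn n).Infinite :=
  ⟨encard_specialIn_one, encard_specialIn_two, encard_specialIn_three, ten_le,
    fun _ hn => infinite_of_five_le hn⟩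

end SpecialBraids.Partial
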