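import Pool.Agent.Helper181_Braid.Family

/-!
# Special braids on at most four strands
-/

namespace SpecialBraids

theorem special_iff {n : ℕ} {z : BInf} : z ∈ specialIn (n + 1) ↔
    ∃ l : List BInf, (∀ a ∈ l, Special a) ∧ l.length ≤ n ∧ br l ∈ Bn n ∧ z = app l := by
  constructor
  · rintro ⟨h1, h2⟩
    obtain ⟨l, hl, rfl⟩ := exists_app h1
    exact ⟨l, hl, (app_mem h2).1, (app_mem h2).2, rfl⟩
  · rintro ⟨l, hl, h1, h2, rfl⟩
    exact ⟨special_app hl, mem_app h1 h2⟩

theorem op_one_one : op 1 1 = σ 0 := by simp [op]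

theorem special_σ : Special (σ 0) := op_one_one ▸ Special.op Special.one Special.one

theorem one_mem_specialIn (n : ℕ) : (1 : BInf) ∈ specialIn n := ⟨Special.one, one_mem _⟩

theorem specialIn_one : specialIn 1 = {1} := by
  ext z
  rw [special_iff, Set.mem_singleton_iff]
  constructor
  · rintro ⟨l, -, h1, -, rfl⟩
    have : l = [] := List.length_eq_zero_iff.1 (by omega)
    subst this
    rfl
  · rintro rfl
    exact ⟨[], by simp, by simp, one_mem _, rfl⟩

theorem special_mem_Bn_one {a : BInf} (h : Special a) (h' : a ∈ Bn 1) : a = 1 := by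
  have : a ∈ specialIn 1 := ⟨h, h'⟩
  rwa [specialIn_one] at this

theorem specialIn_two : specialIn 2 = {1, σ 0} := by
  ext z
  constructor
  · intro hz
    obtain ⟨l, hl, h1, h2, rfl⟩ := special_iff.1 hz
    match l, h1 with
    | [], _ => left; rfl
    | [a], _ =>
      right
      have ha : a = 1 := special_mem_Bn_one (hl a (by simp)) (by simpa [br] using h2)
      subst ha
      simp [app, op]
  · rintro (rfl | rfl)
    · exact one_mem_specialIn _
    · exact ⟨special_σ, σ_mem (by omega)⟩

theorem specialIn_three : specialIn 3 = {1, σ 0, σ 0 * σ 0 * (σ 1)⁻¹, σ 1 * σ 0} := by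
  ext z
  constructor
  · intro hz
    obtain ⟨l, hl, h1, h2, rfl⟩ := special_iff.1 hz
    match l, h1 with
    | [], _ => left; rfl
    | [a], _ =>
      have ha : a ∈ specialIn 2 := ⟨hl a (by simp), by simpa [br] using h2⟩
      rw [specialIn_two] at ha
      rcases ha with rfl | rfl
      · right; left; simp [app, op]
      · right; right; left
        simp [app, op]
    | [a, b], _ =>
      right; right; right
      rw [app_eq_δ (n := 2) rfl h2]
      simp [δ]
  · rintro (rfl | rfl | rfl | rfl)
    · exact one_mem_specialIn _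
    · exact ⟨special_σ, σ_mem (by omega)⟩
    · refine ⟨?_, mul_mem (mul_mem (σ_mem (by omega)) (σ_mem (by omega)))
        (inv_mem (σ_mem (by omega)))⟩
      have := Special.op special_σ Special.one
      simpa [op] using this
    · refine ⟨?_, mul_mem (σ_mem (by omega)) (σ_mem (by omega))⟩
      have := Special.op Special.one special_σ
      simpa [op] using this

/-! ### Telling special braids apart -/

/-- The first four coordinates of the image of the first basis vector. -/
def col (b : BInf) : ℤ × ℤ × ℤ × ℤ :=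
  (bu b (Pi.single 0 1) 0, bu b (Pi.single 0 1) 1, bu b (Pi.single 0 1) 2, bu b (Pi.single 0 1) 3)

theorem bu_app (l : List BInf) :
    bu (app l) (Pi.single 0 1) = bu (br l) (bu (δ l.length) (Pi.single 0 1)) := by
  rw [app_eq, ← map_inv, map_mul, Equiv.Perm.mul_apply, bu_sh, map_mul, Equiv.Perm.mul_apply]

theorem buP_symm (i : ℕ) (v : ℕ → ℤ) (j : ℕ) :
    (Equiv.symm (buP i)) v j =
      if j = i then v (i + 1) else if j = i + 1 then 2 * v (i + 1) - v i else v j := rfl

theorem bu_inv (x : BInf) : bu x⁻¹ = Equiv.symm (bu x) := by rw [map_inv]; rfl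

theorem col_one : col 1 = (1, 0, 0, 0) := by simp [col]

theorem encard_specialIn_one : (specialIn 1).encard = 1 := by
  rw [specialIn_one, Set.encard_singleton]

theorem col_σ : col (σ 0) = (2, 1, 0, 0) := by
  simp [col, buP_apply]

theorem encard_specialIn_two : (specialIn 2).encard = 2 := by
  rw [specialIn_two, Set.encard_pair]
  intro h
  have := congrArg col h
  rw [col_one, col_σ] at this
  simp at this

theorem col_three : col (σ 0 * σ 0 * (σ 1)⁻¹) = (3, 2, 0, 0) := by
  simp [col, buP_apply, buP_symm]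

theorem col_four : col (σ 1 * σ 0) = (2, 2, 1, 0) := by
  simp [col, buP_apply]

theorem encard_specialIn_three : (specialIn 3).encard = 4 := by
  have h : specialIn 3 = (({1, σ 0, σ 0 * σ 0 * (σ 1)⁻¹, σ 1 * σ 0} : Set BInf)) := specialIn_three
  have h1 : (1 : BInf) ∉ ({σ 0, σ 0 * σ 0 * (σ 1)⁻¹, σ 1 * σ 0} : Set BInf) := by
    rintro (h | h | h) <;> have := congrArg col h <;>
      simp [col_one, col_σ, col_three, col_four] at this
  have h2 : σ 0 ∉ ({σ 0 * σ 0 * (σ 1)⁻¹, σ 1 * σ 0} : Set BInf) := by
    rintro (h | h) <;> have := congrArg col h <;>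
      simp [col_σ, col_three, col_four] at this
  have h3 : σ 0 * σ 0 * (σ 1)⁻¹ ∉ ({σ 1 * σ 0} : Set BInf) := by
    intro h
    have := congrArg col (Set.mem_singleton_iff.1 h)
    simp [col_three, col_four] at this
  rw [h, Set.encard_insert_of_notMem h1, Set.encard_insert_of_notMem h2,
    Set.encard_insert_of_notMem h3, Set.encard_singleton]
  norm_num

/-! ### Ten special braids on four strands -/

/-- The special braid `(1 ∧ 1) ∧ 1`. -/
def s2 : BInf := σ 0 * σ 0 * (σ 1)⁻¹

/-- The special braid `1 ∧ (1 ∧ 1)`. -/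
def s3 : BInf := σ 1 * σ 0

theorem special_s2 : Special s2 := by
  have := Special.op special_σ Special.one
  simpa [op, s2] using this

theorem special_s3 : Special s3 := by
  have := Special.op Special.one special_σ
  simpa [op, s3] using this

theorem s2_mem : s2 ∈ Bn 3 :=
  mul_mem (mul_mem (σ_mem (by omega)) (σ_mem (by omega))) (inv_mem (σ_mem (by omega)))

theorem s3_mem : s3 ∈ Bn 3 := mul_mem (σ_mem (by omega)) (σ_mem (by omega))

theorem app_mem_specialIn {n : ℕ} {l : List BInf} (h1 : ∀ a ∈ l, Special a)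
    (h2 : l.length ≤ n) (h3 : br l ∈ Bn n) : app l ∈ specialIn (n + 1) :=
  ⟨special_app h1, mem_app h2 h3⟩

/-- The ten lists giving special braids on four strands. -/
def tenLists : List (List BInf) :=
  [[], [1], [σ 0], [s2], [s3], [1, 1], [1, σ 0], [σ 0, σ 0], [s2, 1], [1, 1, 1]]

theorem tenLists_mem {l : List BInf} (hl : l ∈ tenLists) : app l ∈ specialIn 4 := by
  have e0 : σ 0 ∈ Bn 3 := σ_mem (by omega)
  have e1 : σ 1 ∈ Bn 3 := σ_mem (by omega)
  simp only [tenLists, List.mem_cons, List.not_mem_nil, or_false] at hl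
  rcases hl with rfl | rfl | rfl | rfl | rfl | rfl | rfl | rfl | rfl | rfl
  · exact app_mem_specialIn (by simp) (by simp) (one_mem _)
  · exact app_mem_specialIn (by simp [Special.one]) (by simp) (by simp [br, one_mem])
  · exact app_mem_specialIn (by simp [special_σ]) (by simp) (by simpa [br] using e0)
  · exact app_mem_specialIn (by simp [special_s2]) (by simp) (by simpa [br] using s2_mem)
  · exact app_mem_specialIn (by simp [special_s3]) (by simp) (by simpa [br] using s3_mem)
  · exact app_mem_specialIn (by simp [Special.one]) (by simp) (by simp [br, one_mem])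
  · exact app_mem_specialIn (by simp [Special.one, special_σ]) (by simp) (by simpa [br] using e1)
  · exact app_mem_specialIn (by simp [special_σ]) (by simp)
      (by simpa [br] using mul_mem e0 e1)
  · exact app_mem_specialIn (by simp [special_s2, Special.one]) (by simp)
      (by simpa [br] using s2_mem)
  · exact app_mem_specialIn (by simp [Special.one]) (by simp) (by simp [br, one_mem])

theorem col_app (l : List BInf) : col (app l) =
    (bu (br l) (bu (δ l.length) (Pi.single 0 1)) 0, bu (br l) (bu (δ l.length) (Pi.single 0 1)) 1,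
      bu (br l) (bu (δ l.length) (Pi.single 0 1)) 2,
      bu (br l) (bu (δ l.length) (Pi.single 0 1)) 3) := by
  simp only [col, bu_app]

theorem ten_le : 10 ≤ (specialIn 4).encard := by
  let S : Finset (ℤ × ℤ × ℤ × ℤ) := {(1, 0, 0, 0), (2, 1, 0, 0), (3, 2, 0, 0), (6, 4, -1, 0),
    (3, 4, 2, 0), (2, 2, 1, 0), (2, 3, 2, 0), (1, 2, 2, 0), (4, 3, 0, 0), (2, 2, 2, 1)}
  have hS : S.card = 10 := by decide
  have hsub : (S : Set (ℤ × ℤ × ℤ × ℤ)) ⊆ col '' specialIn 4 := by
    intro v hv
    have key : ∃ l ∈ tenLists, col (app l) = v := by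
      simp only [S, Finset.coe_insert, Finset.coe_singleton, Set.mem_insert_iff,
        Set.mem_singleton_iff] at hv
      rcases hv with rfl | rfl | rfl | rfl | rfl | rfl | rfl | rfl | rfl | rfl
      · exact ⟨[], by simp [tenLists], by simp [col_app, br, δ]⟩
      · exact ⟨[1], by simp [tenLists], by simp [col_app, br, δ, buP_apply]⟩
      · exact ⟨[σ 0], by simp [tenLists], by simp [col_app, br, δ, buP_apply]⟩
      · exact ⟨[s2], by simp [tenLists], by simp [col_app, br, δ, s2, buP_apply, buP_symm]⟩
      · exact ⟨[s3], by simp [tenLists], by simp [col_app, br, δ, s3, buP_apply]⟩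
      · exact ⟨[1, 1], by simp [tenLists], by simp [col_app, br, δ, buP_apply]⟩
      · exact ⟨[1, σ 0], by simp [tenLists], by simp [col_app, br, δ, buP_apply]⟩
      · exact ⟨[σ 0, σ 0], by simp [tenLists], by simp [col_app, br, δ, buP_apply]⟩
      · exact ⟨[s2, 1], by simp [tenLists], by simp [col_app, br, δ, s2, buP_apply]⟩
      · exact ⟨[1, 1, 1], by simp [tenLists], by simp [col_app, br, δ, buP_apply]⟩
    obtain ⟨l, hl, rfl⟩ := key
    exact ⟨app l, tenLists_mem hl, rfl⟩
  calc (10 : ℕ∞) = (S : Set (ℤ × ℤ × ℤ × ℤ)).encard := by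
        rw [Set.encard_coe_eq_coe_finsetCard, hS]; rfl
    _ ≤ (col '' specialIn 4).encard := Set.encard_le_encard hsub
    _ ≤ (specialIn 4).encard := Set.encard_image_le _ _

end SpecialBraids
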